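import Pool.Agent.Lib.MP_8e135c_alW.Sep

/-!
# Classification of the corners without word systems
-/

namespace Pool.Agent.Lib.MP_8e135c_alW.Sys

universe u v

section Forms

variable {k : Type v} [Field k]

theorem form_one {a11 a12 a21 a22 α β : k}
    (hns : ∀ γ p q : k, γ ≠ 0 → (p ≠ 0 ∨ q ≠ 0) →
      ¬ (a11 = γ * p * p ∧ a12 = γ * p * q ∧ a21 = γ * q * p ∧ a22 = γ * q * q))
    (hnz : ¬ (a11 = 0 ∧ a12 = 0 ∧ a21 = 0 ∧ a22 = 0)) :
    ∃ u1 u2 : k, (α * a11 + β * a21) * u1 + (α * a12 + β * a22) * u2 = 0 ∧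
      (u1 * a11 + u2 * a21 ≠ 0 ∨ u1 * a12 + u2 * a22 ≠ 0) := by
  by_cases h0 : α * a11 + β * a21 = 0 ∧ α * a12 + β * a22 = 0
  · by_cases h1 : a11 ≠ 0 ∨ a12 ≠ 0
    · refine ⟨1, 0, by rw [h0.1, h0.2]; ring, ?_⟩
      simpa using h1
    · refine ⟨0, 1, by rw [h0.1, h0.2]; ring, ?_⟩
      push Not at h1
      by_contra h2
      push Not at h2
      apply hnz
      refine ⟨h1.1, h1.2, ?_, ?_⟩
      · linear_combination h2.1
      · linear_combination h2.2
  · by_contra hcon
    push Not at hcon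
    obtain ⟨e1, e2⟩ := hcon (α * a12 + β * a22) (-(α * a11 + β * a21)) (by ring)
    generalize hρ1 : α * a11 + β * a21 = ρ1 at *
    generalize hρ2 : α * a12 + β * a22 = ρ2 at *
    have hκ11 : a11 * (α * ρ1 + β * ρ2) = ρ1 * ρ1 := by
      linear_combination ρ1 * hρ1 + β * e1
    have hκ12 : a12 * (α * ρ1 + β * ρ2) = ρ1 * ρ2 := by
      linear_combination ρ1 * hρ2 + β * e2
    have hκ21 : a21 * (α * ρ1 + β * ρ2) = ρ2 * ρ1 := by
      linear_combination ρ2 * hρ1 - α * e1
    have hκ22 : a22 * (α * ρ1 + β * ρ2) = ρ2 * ρ2 := by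
      linear_combination ρ2 * hρ2 - α * e2
    have hρ : ρ1 ≠ 0 ∨ ρ2 ≠ 0 := by
      by_contra h
      push Not at h
      exact h0 h
    have hκ : α * ρ1 + β * ρ2 ≠ 0 := by
      intro h
      rw [h, mul_zero] at hκ11 hκ22
      rcases hρ with h1 | h1
      · exact h1 (mul_self_eq_zero.1 hκ11.symm)
      · exact h1 (mul_self_eq_zero.1 hκ22.symm)
    refine hns (α * ρ1 + β * ρ2)⁻¹ ρ1 ρ2 (inv_ne_zero hκ) hρ ⟨?_, ?_, ?_, ?_⟩
    · rw [mul_assoc, ← hκ11]
      field_simp
    · rw [mul_assoc, ← hκ12]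
      field_simp
    · rw [mul_assoc, ← hκ21]
      field_simp
    · rw [mul_assoc, ← hκ22]
      field_simp

theorem form_two {a11 a12 a21 a22 α β : k}
    (hns : ∀ γ p q : k, γ ≠ 0 → (p ≠ 0 ∨ q ≠ 0) →
      ¬ (a11 = γ * p * p ∧ a12 = γ * p * q ∧ a21 = γ * q * p ∧ a22 = γ * q * q))
    (hnz : ¬ (a11 = 0 ∧ a12 = 0 ∧ a21 = 0 ∧ a22 = 0))
    (h1 : α * a11 + β * a21 = 0) (h2 : α * a12 + β * a22 = 0)
    (h3 : α * a11 + β * a12 = 0) (h4 : α * a21 + β * a22 = 0) : α = 0 ∧ β = 0 := by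
  by_contra hc
  have hc' : α ≠ 0 ∨ β ≠ 0 := by
    by_contra h
    push Not at h
    exact hc h
  rcases eq_or_ne α 0 with rfl | hα
  · have hβ : β ≠ 0 := by
      rcases hc' with h | h
      · exact absurd rfl h
      · exact h
    have e1 : a21 = 0 := by
      have : β * a21 = 0 := by linear_combination h1
      exact (mul_eq_zero.1 this).resolve_left hβ
    have e2 : a22 = 0 := by
      have : β * a22 = 0 := by linear_combination h2
      exact (mul_eq_zero.1 this).resolve_left hβ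
    have e3 : a12 = 0 := by
      have : β * a12 = 0 := by linear_combination h3
      exact (mul_eq_zero.1 this).resolve_left hβ
    have e4 : a11 ≠ 0 := fun h => hnz ⟨h, e3, e1, e2⟩
    refine hns a11 1 0 e4 (Or.inl one_ne_zero) ⟨by ring, by rw [e3]; ring, by rw [e1]; ring,
      by rw [e2]; ring⟩
  · have e22 : a22 ≠ 0 := by
      intro h
      rw [h] at h2 h4
      have e1 : a12 = 0 := by
        have : α * a12 = 0 := by linear_combination h2
        exact (mul_eq_zero.1 this).resolve_left hα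
      have e2 : a21 = 0 := by
        have : α * a21 = 0 := by linear_combination h4
        exact (mul_eq_zero.1 this).resolve_left hα
      have e3 : a11 = 0 := by
        rw [e2] at h1
        have : α * a11 = 0 := by linear_combination h1
        exact (mul_eq_zero.1 this).resolve_left hα
      exact hnz ⟨e3, e1, e2, h⟩
    have f1 : α * α * a11 = a22 * β * β := by linear_combination α * h1 - β * h4
    have f2 : α * a12 = -(β * a22) := by linear_combination h2
    have f3 : α * a21 = -(β * a22) := by linear_combination h4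
    have hαα : α * α ≠ 0 := mul_ne_zero hα hα
    refine hns (a22 / (α * α)) β (-α) (div_ne_zero e22 hαα) (Or.inr (neg_ne_zero.2 hα))
      ⟨?_, ?_, ?_, ?_⟩
    · apply mul_left_cancel₀ hαα
      rw [f1]
      field_simp
    · apply mul_left_cancel₀ hα
      rw [f2]
      field_simp
    · apply mul_left_cancel₀ hα
      rw [f3]
      field_simp
    · field_simp

theorem form_pencil (hq : ∀ α β : k, ∃ τ : k, τ * τ + α * τ + β = 0)
    (a11 a12 a21 a22 b11 b12 b21 b22 : k) : ∃ α β : k, (α ≠ 0 ∨ β ≠ 0) ∧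
      (α * a11 + β * b11) * (α * a22 + β * b22) =
        (α * a12 + β * b12) * (α * a21 + β * b21) := by
  by_cases h : a11 * a22 - a12 * a21 = 0
  · exact ⟨1, 0, Or.inl one_ne_zero, by linear_combination h⟩
  · obtain ⟨τ, hτ⟩ := hq ((a11 * b22 + b11 * a22 - a12 * b21 - b12 * a21) /
      (a11 * a22 - a12 * a21)) ((b11 * b22 - b12 * b21) / (a11 * a22 - a12 * a21))
    refine ⟨τ, 1, Or.inr one_ne_zero, ?_⟩
    field_simp at hτ
    linear_combination hτ

theorem form_factor {a11 a12 a21 a22 : k} (hd : a11 * a22 = a12 * a21)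
    (hnz : ¬ (a11 = 0 ∧ a12 = 0 ∧ a21 = 0 ∧ a22 = 0)) :
    ∃ p q r t : k, (p ≠ 0 ∨ q ≠ 0) ∧ (r ≠ 0 ∨ t ≠ 0) ∧
      a11 = p * r ∧ a12 = p * t ∧ a21 = q * r ∧ a22 = q * t := by
  by_cases h1 : a11 ≠ 0
  · refine ⟨a11, a21, 1, a12 / a11, Or.inl h1, Or.inl one_ne_zero, by ring, ?_, by ring, ?_⟩
    · field_simp
    · field_simp
      linear_combination hd
  · push Not at h1
    by_cases h2 : a12 ≠ 0
    · have h3 : a21 = 0 := by
        rw [h1, zero_mul] at hd
        exact (mul_eq_zero.1 hd.symm).resolve_left h2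
      exact ⟨a12, a22, 0, 1, Or.inl h2, Or.inr one_ne_zero, by rw [h1]; ring, by ring,
        by rw [h3]; ring, by ring⟩
    · push Not at h2
      refine ⟨0, 1, a21, a22, Or.inr one_ne_zero, ?_, by rw [h1]; ring, by rw [h2]; ring, by ring,
        by ring⟩
      by_contra h3
      push Not at h3
      exact hnz ⟨h1, h2, h3.1, h3.2⟩

theorem form_dep {p q r t : k} (hpq : p ≠ 0 ∨ q ≠ 0) (hrt : r ≠ 0 ∨ t ≠ 0)
    (hD : p * t - q * r = 0) : ∃ γ : k, γ ≠ 0 ∧ p * r = γ * p * p ∧ p * t = γ * p * q ∧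
      q * r = γ * q * p ∧ q * t = γ * q * q := by
  have hD' : p * t = q * r := by linear_combination hD
  by_cases hp : p ≠ 0
  · refine ⟨r / p, ?_, ?_, ?_, ?_, ?_⟩
    · apply div_ne_zero _ hp
      intro h
      rw [h, mul_zero] at hD'
      have ht := (mul_eq_zero.1 hD').resolve_left hp
      rcases hrt with h1 | h1
      · exact h1 h
      · exact h1 ht
    · field_simp
    · field_simp
      linear_combination hD'
    · field_simp
    · field_simp
      linear_combination q * hD'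
  · push Not at hp
    have hq' : q ≠ 0 := by
      rcases hpq with h | h
      · exact absurd hp h
      · exact h
    have hr : r = 0 := by
      rw [hp, zero_mul] at hD'
      exact (mul_eq_zero.1 hD'.symm).resolve_left hq'
    refine ⟨t / q, ?_, ?_, ?_, ?_, ?_⟩
    · apply div_ne_zero _ hq'
      rcases hrt with h | h
      · exact absurd hr h
      · exact h
    · rw [hp]; ring
    · rw [hp]; ring
    · rw [hr, hp]; ring
    · field_simp

end Forms

variable {S : Type u} [Ring S] {k : Type v} [Field k] {res : S →+* k}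

theorem span_le_ker {x : S} (x0 : res x = 0) :
    Ideal.span {x} ⊔ RingHom.ker res ^ 2 ≤ RingHom.ker res := by
  refine sup_le ?_ sq_le_ker
  rw [Ideal.span_le, Set.singleton_subset_iff]
  exact x0

theorem span_pair_le_ker {x y : S} (x0 : res x = 0) (y0 : res y = 0) :
    Ideal.span {x, y} ⊔ RingHom.ker res ^ 2 ≤ RingHom.ker res := by
  refine sup_le ?_ sq_le_ker
  rw [Ideal.span_le, Set.insert_subset_iff, Set.singleton_subset_iff]
  exact ⟨x0, y0⟩

theorem FunOn.ne_zero_of {I : Ideal S} {l : S → k} (_h : FunOn res I l) {z : S} (hz : l z = 1) :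
    l z ≠ 0 := by
  rw [hz]
  exact one_ne_zero

/-- if there is no word system, then `m / m ^ 2` has dimension at most two -/
theorem exists_basis (hres : Function.Surjective res)
    (hc : ∀ s : S, ∃ c ∈ Subring.center S, res (s - c) = 0) (hno : ¬ HasSys S k)
    (h1 : ¬ ∃ x, res x = 0 ∧ RingHom.ker res ≤ Ideal.span {x} ⊔ RingHom.ker res ^ 2) :
    ∃ (x y : S) (lx ly : S → k), Basis2 res x y lx ly := by
  push Not at h1
  -- the first element
  obtain ⟨x, hx, hx2⟩ := Set.not_subset.1 (h1 0 (map_zero res))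
  replace hx : res x = 0 := hx
  replace hx2 : x ∉ RingHom.ker res ^ 2 := fun h => hx2 (Ideal.mem_sup_right h)
  -- the second element
  obtain ⟨y, hy, hy2⟩ := Set.not_subset.1 (h1 x hx)
  replace hy : res y = 0 := hy
  replace hy2 : y ∉ Ideal.span {x} ⊔ RingHom.ker res ^ 2 := hy2
  have hsep : ∀ (N : Ideal S), N ≤ RingHom.ker res → RingHom.ker res ^ 2 ≤ N → ∀ z, res z = 0 →
      z ∉ N → ∃ l : S → k, FunOn res (RingHom.ker res) l ∧ (∀ a ∈ N, l a = 0) ∧ l z = 1 := by
    intro N hN1 hN2 z hz hzN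
    exact sep hres hc (RingHom.ker res) N hN1 (fun s hs a ha => hN2 (mul_mem_sq hs ha))
      (fun s hs a ha => hN2 (mul_mem_sq ha hs)) hz hzN
  obtain ⟨l0, hl0, -, hl0x⟩ := hsep _ sq_le_ker (le_refl _) x hx hx2
  obtain ⟨ly, hly, hlyN, hlyy⟩ := hsep _ (span_le_ker hx) le_sup_right y hy hy2
  have hlyx : ly x = 0 := hlyN x (Ideal.mem_sup_left (Ideal.mem_span_singleton_self x))
  let lx : S → k := fun a => 1 * l0 a + (-l0 y) * ly a
  have hlx : FunOn res (RingHom.ker res) lx := hl0.comb hly 1 (-l0 y)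
  have hlxx : lx x = 1 := by
    change 1 * l0 x + (-l0 y) * ly x = 1
    rw [hl0x, hlyx]; ring
  have hlxy : lx y = 0 := by
    change 1 * l0 y + (-l0 y) * ly y = 0
    rw [hlyy]; ring
  -- there is no third element
  have h3 : RingHom.ker res ≤ Ideal.span {x, y} ⊔ RingHom.ker res ^ 2 := by
    by_contra hcon
    obtain ⟨z, hz, hz2⟩ := Set.not_subset.1 hcon
    replace hz : res z = 0 := hz
    obtain ⟨lz, hlz, hlzN, hlzz⟩ := hsep _ (span_pair_le_ker hx hy) le_sup_right z hz hz2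
    have hlzx : lz x = 0 := hlzN x (Ideal.mem_sup_left (Ideal.subset_span (by simp)))
    have hlzy : lz y = 0 := hlzN y (Ideal.mem_sup_left (Ideal.subset_span (by simp)))
    refine hno (hasSys_of_three (hlx.comb hlz 1 (-lx z)) (hly.comb hlz 1 (-ly z)) hlz hx hy hz
      ?_ ?_ ?_ ?_ ?_ ?_ hlzy hlzz)
    · rw [hlxx, hlzx]; ring
    · rw [hlxy, hlzy]; ring
    · rw [hlzz]; ring
    · rw [hlyx, hlzx]; ring
    · rw [hlyy, hlzy]; ring
    · rw [hlzz]; ring
  refine ⟨x, y, lx, ly, Basis2.mk' hres hlx hly hx hy hlxx hlxy hlyx hlyy fun a ha e1 e2 => ?_⟩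
  obtain ⟨w, hw, b, hb, rfl⟩ := Submodule.mem_sup.1 (h3 ha)
  obtain ⟨r, s, rfl⟩ := Submodule.mem_span_pair.1 hw
  rw [smul_eq_mul, smul_eq_mul] at *
  have f1 : res (r * x) = 0 := by rw [map_mul, hx, mul_zero]
  have f2 : res (s * y) = 0 := by rw [map_mul, hy, mul_zero]
  have f3 : res (r * x + s * y) = 0 := by rw [map_add, f1, f2, add_zero]
  rw [hlx.add _ f3 _ (hlx.sq hb).2, hlx.add _ f1 _ f2, hlx.left _ _ hx, hlx.left _ _ hy, hlxx,
    hlxy, (hlx.sq hb).1] at e1
  rw [hly.add _ f3 _ (hly.sq hb).2, hly.add _ f1 _ f2, hly.left _ _ hx, hly.left _ _ hy, hlyx,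
    hlyy, (hly.sq hb).1] at e2
  have g1 : res r = 0 := by linear_combination e1
  have g2 : res s = 0 := by linear_combination e2
  exact Ideal.add_mem _ (Ideal.add_mem _ (mul_mem_sq g1 hx) (mul_mem_sq g2 hy)) hb

theorem Basis2.span_left {x y : S} {lx ly : S → k} (B : Basis2 res x y lx ly)
    (hc : ∀ s : S, ∃ c ∈ Subring.center S, res (s - c) = 0) :
    RingHom.ker res ≤ Ideal.span {x, y} ⊔ RingHom.ker res ^ 2 := by
  have h1 : ∀ z r : S, res z = 0 → z ∈ Ideal.span {x, y} →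
      z * r ∈ Ideal.span {x, y} ⊔ RingHom.ker res ^ 2 := by
    intro z r hz hzm
    obtain ⟨c, hc1, hc2⟩ := hc r
    have e : z * r = c * z + z * (r - c) := by
      rw [mul_sub, Subring.mem_center_iff.1 hc1 z]
      abel
    rw [e]
    exact Ideal.add_mem _ (Ideal.mem_sup_left (Ideal.mul_mem_left _ c hzm))
      (Ideal.mem_sup_right (mul_mem_sq hz hc2))
  intro a ha
  obtain ⟨r, s, b, hb, rfl⟩ := B.span a ha
  exact Ideal.add_mem _ (Ideal.add_mem _ (h1 x r B.x0 (Ideal.subset_span (by simp)))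
    (h1 y s B.y0 (Ideal.subset_span (by simp)))) (Ideal.mem_sup_right hb)

theorem Basis2.nonsq {x y : S} {lx ly : S → k} (B : Basis2 res x y lx ly)
    (hres : Function.Surjective res) (hc : ∀ s : S, ∃ c ∈ Subring.center S, res (s - c) = 0)
    (hno : ¬ HasSys S k) {φ : S → k} (h : FunOn res (RingHom.ker res ^ 2) φ) :
    ∀ γ p q : k, γ ≠ 0 → (p ≠ 0 ∨ q ≠ 0) → ¬ (φ (x * x) = γ * p * p ∧ φ (x * y) = γ * p * q ∧
      φ (y * x) = γ * q * p ∧ φ (y * y) = γ * q * q) :=
  fun _ _ _ hγ hpq hh => hno (B.hasSys_square hres hc h hγ hpq hh.1 hh.2.1 hh.2.2.1 hh.2.2.2)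

theorem Basis2.nonzero {x y : S} {lx ly : S → k} (B : Basis2 res x y lx ly)
    (hc : ∀ s : S, ∃ c ∈ Subring.center S, res (s - c) = 0)
    {φ : S → k} (h : FunOn res (RingHom.ker res ^ 2) φ) {s : S} (hs : s ∈ RingHom.ker res ^ 2)
    (hφs : φ s ≠ 0) :
    ¬ (φ (x * x) = 0 ∧ φ (x * y) = 0 ∧ φ (y * x) = 0 ∧ φ (y * y) = 0) := by
  rintro ⟨h1, h2, h3, h4⟩
  apply hφs
  refine h.eq_zero (fun a b ha hb => ?_) hs
  rw [B.pair hc h ha hb, h1, h2, h3, h4]
  ring

/-- the case `dim m ^ 2 / m ^ 3 = 1` -/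
theorem Basis2.case_one {x y : S} {lx ly : S → k} (B : Basis2 res x y lx ly)
    (hres : Function.Surjective res) (hc : ∀ s : S, ∃ c ∈ Subring.center S, res (s - c) = 0)
    (hno : ¬ HasSys S k) {φ : S → k} (h : FunOn res (RingHom.ker res ^ 2) φ) {s : S}
    (hs : s ∈ RingHom.ker res ^ 2) (hφs : φ s = 1)
    (hspan : RingHom.ker res ^ 2 ≤ Ideal.span {s} ⊔ RingHom.ker res ^ 3) :
    RingHom.ker res ^ 3 ≤ RingHom.ker res ^ 4 ∧
      ∀ u, res u = 0 → (∀ z, res z = 0 → u * z ∈ RingHom.ker res ^ 3 ∧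
        z * u ∈ RingHom.ker res ^ 3) → u ∈ RingHom.ker res ^ 2 := by
  have hns := B.nonsq hres hc hno h
  have hnz := B.nonzero hc h hs (by rw [hφs]; exact one_ne_zero)
  -- the kernel of `φ`
  have hdec : ∀ u ∈ RingHom.ker res ^ 2, ∃ r t, t ∈ RingHom.ker res ^ 3 ∧ u = r * s + t ∧
      res r = φ u := by
    intro u hu
    obtain ⟨w, hw, t, ht, rfl⟩ := Submodule.mem_sup.1 (hspan hu)
    obtain ⟨r, rfl⟩ := Submodule.mem_span_singleton.1 hw
    refine ⟨r, t, ht, rfl, ?_⟩
    rw [smul_eq_mul, h.add _ (Ideal.mul_mem_left _ r hs) _ (cube_le_sq ht), h.left _ _ hs, hφs,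
      h.cube ht]
    ring
  have hker : ∀ u ∈ RingHom.ker res ^ 2, φ u = 0 → u ∈ RingHom.ker res ^ 3 := by
    intro u hu h0
    obtain ⟨r, t, ht, rfl, hr⟩ := hdec u hu
    rw [h0] at hr
    exact Ideal.add_mem _ (mul_mem_cube hr hs) ht
  constructor
  · -- `w s ∈ m ^ 4` for all `w ∈ m`
    have key : ∀ w, res w = 0 → w * s ∈ RingHom.ker res ^ 4 := by
      intro w hw
      obtain ⟨u1, u2, hu1, hu2⟩ := form_one (α := lx w) (β := ly w) hns hnz
      obtain ⟨c1, hc1⟩ := hres u1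
      obtain ⟨c2, hc2⟩ := hres u2
      have hx1 : res (x * c1) = 0 := by rw [map_mul, B.x0, zero_mul]
      have hy1 : res (y * c2) = 0 := by rw [map_mul, B.y0, zero_mul]
      have hu0 : res (x * c1 + y * c2) = 0 := by rw [map_add, hx1, hy1, add_zero]
      have hlxu : lx (x * c1 + y * c2) = u1 := by
        rw [B.hlx.add _ hx1 _ hy1, B.hlx.right _ _ B.x0, B.hlx.right _ _ B.y0, B.lxx, B.lxy, hc1]
        ring
      have hlyu : ly (x * c1 + y * c2) = u2 := by
        rw [B.hly.add _ hx1 _ hy1, B.hly.right _ _ B.x0, B.hly.right _ _ B.y0, B.lyx, B.lyy, hc2]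
        ring
      generalize x * c1 + y * c2 = u at hu0 hlxu hlyu
      have hwu : φ (w * u) = 0 := by
        rw [B.pair hc h hw hu0, hlxu, hlyu]
        linear_combination hu1
      -- an element `v` with `φ (u v) ≠ 0`
      obtain ⟨v, hv0, hv⟩ : ∃ v, res v = 0 ∧ φ (u * v) ≠ 0 := by
        rcases hu2 with h2 | h2
        · refine ⟨x, B.x0, ?_⟩
          rw [B.pair hc h hu0 B.x0, hlxu, hlyu, B.lxx, B.lyx]
          intro h3
          apply h2
          linear_combination h3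
        · refine ⟨y, B.y0, ?_⟩
          rw [B.pair hc h hu0 B.y0, hlxu, hlyu, B.lxy, B.lyy]
          intro h3
          apply h2
          linear_combination h3
      obtain ⟨r0, t0, ht0, huv, hr0⟩ := hdec (u * v) (mul_mem_sq hu0 hv0)
      obtain ⟨r1, hr1⟩ := hres (φ (u * v))⁻¹
      -- `w r1`
      have hw1 : res (w * r1) = 0 := by rw [map_mul, hw, zero_mul]
      have hwu1 : φ (w * r1 * u) = 0 := by
        have := (h.pairL hc hu0).right r1 w hw
        rw [this, hwu, mul_zero]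
      have h5 : w * r1 * u ∈ RingHom.ker res ^ 3 := hker _ (mul_mem_sq hw1 hu0) hwu1
      have h6 : w * r1 * (r0 * s) ∈ RingHom.ker res ^ 4 := by
        have e : w * r1 * (r0 * s) = w * r1 * u * v - w * r1 * t0 := by
          rw [mul_assoc (w * r1) u v, huv, mul_add]
          abel
        rw [e]
        exact Ideal.sub_mem _ (mul_mem_four' h5 hv0) (mul_mem_four hw1 ht0)
      have h7 : res (1 - r1 * r0) = 0 := by
        rw [map_sub, map_one, map_mul, hr1, hr0, inv_mul_cancel₀ hv, sub_self]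
      have e2 : w * s = w * r1 * (r0 * s) + w * ((1 - r1 * r0) * s) := by
        noncomm_ring
      rw [e2]
      exact Ideal.add_mem _ h6 (mul_mem_four hw (mul_mem_cube h7 hs))
    rw [Ideal.IsTwoSided.pow_succ]
    refine Ideal.mul_le.2 fun w hw u hu => ?_
    replace hw : res w = 0 := hw
    obtain ⟨r, t, ht, rfl, -⟩ := hdec u hu
    rw [mul_add, ← mul_assoc]
    exact Ideal.add_mem _ (key _ (by rw [map_mul, hw, zero_mul])) (mul_mem_four hw ht)
  · intro u hu0 hu
    have e1 := h.cube (hu x B.x0).1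
    have e2 := h.cube (hu y B.y0).1
    have e3 := h.cube (hu x B.x0).2
    have e4 := h.cube (hu y B.y0).2
    rw [B.pair hc h hu0 B.x0, B.lxx, B.lyx] at e1
    rw [B.pair hc h hu0 B.y0, B.lxy, B.lyy] at e2
    rw [B.pair hc h B.x0 hu0, B.lxx, B.lyx] at e3
    rw [B.pair hc h B.y0 hu0, B.lxy, B.lyy] at e4
    obtain ⟨g1, g2⟩ := form_two (α := lx u) (β := ly u) hns hnz (by linear_combination e1)
      (by linear_combination e2) (by linear_combination e3) (by linear_combination e4)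
    exact B.ker_mem hu0 g1 g2

end Pool.Agent.Lib.MP_8e135c_alW.Sys
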