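import Pool.Agent.Lib.MP_8e135c_alW.Class

/-!
# Classification of the corners without word systems, the case `dim m ^ 2 / m ^ 3 ≥ 2`
-/

namespace Pool.Agent.Lib.MP_8e135c_alW.Sys

universe u v

variable {S : Type u} [Ring S] {k : Type v} [Field k] {res : S →+* k}

theorem FunOn.smul {I : Ideal S} {l : S → k} (h : FunOn res I l) (α : k) :
    FunOn res I (fun a => α * l a) := by
  have := h.comb h α 0
  simpa only [zero_mul, add_zero] using this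

/-- two forms of rank one, one of them in normal form -/
theorem Basis2.no_two {x y : S} {lx ly : S → k} (B : Basis2 res x y lx ly)
    (hres : Function.Surjective res) (hc : ∀ s : S, ∃ c ∈ Subring.center S, res (s - c) = 0)
    (hno : ¬ HasSys S k) {φ₁ φ : S → k} (h₁ : FunOn res (RingHom.ker res ^ 2) φ₁)
    (h : FunOn res (RingHom.ker res ^ 2) φ)
    (e11 : φ₁ (x * x) = 0) (e12 : φ₁ (x * y) = 1) (e21 : φ₁ (y * x) = 0) (e22 : φ₁ (y * y) = 0) :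
    φ (y * x) = 0 := by
  by_contra hb
  have h3 : FunOn res (RingHom.ker res ^ 2)
      (fun a => 1 * φ a + (φ (x * x) * φ (y * y) / φ (y * x) - φ (x * y)) * φ₁ a) :=
    h.comb h₁ 1 _
  refine hno (B.hasSys_two hres hc h₁ h3 (p := 1) (q := 0) (r := 0) (s := 1)
    (p' := φ (x * x)) (q' := φ (y * x)) (r' := 1) (s' := φ (y * y) / φ (y * x)) ?_
    (Or.inr one_ne_zero) (Or.inl one_ne_zero) ?_ ?_ ?_ ?_ ?_ ?_ ?_ ?_)
  · rw [one_mul, zero_mul, sub_zero]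
    exact hb
  · rw [e11]; ring
  · rw [e12]; ring
  · rw [e21]; ring
  · rw [e22]; ring
  · simp only [e11]; ring
  · simp only [e12]; field_simp; ring
  · simp only [e21]; ring
  · simp only [e22]; field_simp; ring

/-- the case `dim m ^ 2 / m ^ 3 ≥ 2` -/
theorem Basis2.case_two {x y : S} {lx ly : S → k} (B : Basis2 res x y lx ly)
    (hres : Function.Surjective res) (hc : ∀ s : S, ∃ c ∈ Subring.center S, res (s - c) = 0)
    (hq : ∀ α β : k, ∃ τ : k, τ * τ + α * τ + β = 0)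
    (hno : ¬ HasSys S k) {s : S} (hs : s ∈ RingHom.ker res ^ 2) (hs3 : s ∉ RingHom.ker res ^ 3)
    (hspan : ¬ RingHom.ker res ^ 2 ≤ Ideal.span {s} ⊔ RingHom.ker res ^ 3) :
    ∃ (x y : S) (lx ly : S → k), Basis2 res x y lx ly ∧ y * x ∈ RingHom.ker res ^ 3 ∧
      x * x - y * y ∈ RingHom.ker res ^ 3 ∧
      ∀ r t, r * (x * x) + t * (x * y) ∈ RingHom.ker res ^ 3 → res r = 0 ∧ res t = 0 := by
  obtain ⟨s', hs', hs3'⟩ := Set.not_subset.1 hspan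
  replace hs' : s' ∈ RingHom.ker res ^ 2 := hs'
  replace hs3' : s' ∉ Ideal.span {s} ⊔ RingHom.ker res ^ 3 := hs3'
  have hsep : ∀ (N : Ideal S), N ≤ RingHom.ker res ^ 2 → RingHom.ker res ^ 3 ≤ N →
      ∀ z ∈ RingHom.ker res ^ 2, z ∉ N →
      ∃ l : S → k, FunOn res (RingHom.ker res ^ 2) l ∧ (∀ a ∈ N, l a = 0) ∧ l z = 1 := by
    intro N hN1 hN2 z hz hzN
    exact sep hres hc (RingHom.ker res ^ 2) N hN1 (fun s hs a ha => hN2 (mul_mem_cube hs ha))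
      (fun s hs a ha => hN2 (mul_mem_cube' ha hs)) hz hzN
  obtain ⟨φ, hφ, -, hφs⟩ := hsep _ cube_le_sq (le_refl _) s hs hs3
  obtain ⟨φ', hφ', hφN, hφs'⟩ := hsep (Ideal.span {s} ⊔ RingHom.ker res ^ 3)
    (sup_le (by rw [Ideal.span_le, Set.singleton_subset_iff]; exact hs) cube_le_sq)
    le_sup_right s' hs' hs3'
  have hφ's : φ' s = 0 := hφN s (Ideal.mem_sup_left (Ideal.mem_span_singleton_self s))
  -- a degenerate member of the pencil
  obtain ⟨α, β, hαβ, hdet⟩ := form_pencil hq (φ (x * x)) (φ (x * y)) (φ (y * x)) (φ (y * y))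
    (φ' (x * x)) (φ' (x * y)) (φ' (y * x)) (φ' (y * y))
  have hφ1 : FunOn res (RingHom.ker res ^ 2) (fun a => α * φ a + β * φ' a) := hφ.comb hφ' α β
  have hnz1 : ¬ ((fun a => α * φ a + β * φ' a) (x * x) = 0 ∧
      (fun a => α * φ a + β * φ' a) (x * y) = 0 ∧ (fun a => α * φ a + β * φ' a) (y * x) = 0 ∧
      (fun a => α * φ a + β * φ' a) (y * y) = 0) := by
    by_cases hα : α = 0
    · have hβ : β ≠ 0 := by
        rcases hαβ with h | h
        · exact absurd hα h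
        · exact h
      refine B.nonzero hc hφ1 hs' ?_
      rw [hα, hφs', zero_mul, zero_add, mul_one]
      exact hβ
    · refine B.nonzero hc hφ1 hs ?_
      rw [hφs, hφ's, mul_one, mul_zero, add_zero]
      exact hα
  simp only at hnz1
  obtain ⟨p, q, r, t, hpq, hrt, f11, f12, f21, f22⟩ := form_factor hdet hnz1
  -- the two factors are independent
  have hD : p * t - q * r ≠ 0 := by
    intro hD
    obtain ⟨γ, hγ, g1, g2, g3, g4⟩ := form_dep hpq hrt hD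
    exact B.nonsq hres hc hno hφ1 γ p q hγ hpq ⟨f11.trans g1, f12.trans g2, f21.trans g3,
      f22.trans g4⟩
  obtain ⟨x₁, y₁, B₁⟩ := B.change hres hD
  have hpair1 : ∀ a b, res a = 0 → res b = 0 → α * φ (a * b) + β * φ' (a * b) =
      (p * lx a + q * ly a) * (r * lx b + t * ly b) := by
    intro a b ha hb
    have h := B.pair hc hφ1 ha hb
    rw [h, f11, f12, f21, f22]
    ring
  -- from now on the basis `x₁`, `y₁`
  generalize hl₁ : (fun a => p * lx a + q * ly a) = lx₁ at B₁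
  generalize hl₂ : (fun a => r * lx a + t * ly a) = ly₁ at B₁
  have hpair : ∀ a b, res a = 0 → res b = 0 → α * φ (a * b) + β * φ' (a * b) =
      lx₁ a * ly₁ b := by
    intro a b ha hb
    rw [hpair1 a b ha hb, ← hl₁, ← hl₂]
  clear hpair1 f11 f12 f21 f22 hnz1 hdet hl₁ hl₂
  obtain ⟨φ₁, hφ₁⟩ : ∃ φ₁ : S → k, φ₁ = fun a => α * φ a + β * φ' a := ⟨_, rfl⟩
  rw [← hφ₁] at hφ1
  have e11 : φ₁ (x₁ * x₁) = 0 := by
    rw [hφ₁]
    simp only
    rw [hpair _ _ B₁.x0 B₁.x0, B₁.lyx, mul_zero]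
  have e12 : φ₁ (x₁ * y₁) = 1 := by
    rw [hφ₁]
    simp only
    rw [hpair _ _ B₁.x0 B₁.y0, B₁.lyy, B₁.lxx, mul_one]
  have e21 : φ₁ (y₁ * x₁) = 0 := by
    rw [hφ₁]
    simp only
    rw [hpair _ _ B₁.y0 B₁.x0, B₁.lyx, mul_zero]
  have e22 : φ₁ (y₁ * y₁) = 0 := by
    rw [hφ₁]
    simp only
    rw [hpair _ _ B₁.y0 B₁.y0, B₁.lxy, zero_mul]
  -- a second functional
  obtain ⟨φ₂, hφ₂, u, hu, hu1, hu2⟩ : ∃ φ₂ : S → k, FunOn res (RingHom.ker res ^ 2) φ₂ ∧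
      ∃ u ∈ RingHom.ker res ^ 2, φ₁ u = 0 ∧ φ₂ u ≠ 0 := by
    by_cases hβ : β = 0
    · -- `φ₁ = α φ`
      obtain ⟨c, hc1⟩ := hres (φ s')
      have h1 : φ (s' - c * s) = 0 := by
        rw [hφ.sub hs' (Ideal.mul_mem_left _ c hs), hφ.left _ _ hs, hφs, hc1]
        ring
      refine ⟨φ', hφ', s' - c * s, Ideal.sub_mem _ hs' (Ideal.mul_mem_left _ c hs), ?_, ?_⟩
      · rw [hφ₁]
        simp only
        rw [h1, hβ]
        ring
      · rw [hφ'.sub hs' (Ideal.mul_mem_left _ c hs), hφ'.left _ _ hs, hφ's, hφs']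
        simp
    · obtain ⟨c, hc1⟩ := hres (-(φ₁ s) / β)
      have hφ₁s' : φ₁ s' = α * φ s' + β := by
        rw [hφ₁]
        simp only
        rw [hφs']
        ring
      have hφ₁s : φ₁ s = α := by
        rw [hφ₁]
        simp only
        rw [hφs, hφ's]
        ring
      obtain ⟨c, hc1⟩ := hres α
      obtain ⟨d, hd1⟩ := hres (α * φ s' + β)
      have hm1 : d * s ∈ RingHom.ker res ^ 2 := Ideal.mul_mem_left _ d hs
      have hm2 : c * s' ∈ RingHom.ker res ^ 2 := Ideal.mul_mem_left _ c hs'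
      refine ⟨φ, hφ, d * s - c * s', Ideal.sub_mem _ hm1 hm2, ?_, ?_⟩
      · rw [hφ1.sub hm1 hm2, hφ1.left _ _ hs, hφ1.left _ _ hs', hφ₁s', hφ₁s, hc1, hd1]
        ring
      · rw [hφ.sub hm1 hm2, hφ.left _ _ hs, hφ.left _ _ hs', hφs, hc1, hd1]
        intro h
        apply hβ
        linear_combination h
  have hyx : ∀ ψ : S → k, FunOn res (RingHom.ker res ^ 2) ψ → ψ (y₁ * x₁) = 0 :=
    fun ψ hψ => B₁.no_two hres hc hno hφ1 hψ e11 e12 e21 e22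
  -- the normalized second functional
  have hφ₃ : FunOn res (RingHom.ker res ^ 2) (fun a => 1 * φ₂ a + (-φ₂ (x₁ * y₁)) * φ₁ a) :=
    hφ₂.comb hφ1 1 _
  have hnz3 := B₁.nonzero hc hφ₃ hu (by rw [hu1]; simpa using hu2)
  have hns3 := B₁.nonsq hres hc hno hφ₃
  simp only [e11, e12, e21, e22, hyx φ₂ hφ₂] at hnz3 hns3
  have ha : φ₂ (x₁ * x₁) ≠ 0 := by
    intro ha
    have hd : φ₂ (y₁ * y₁) ≠ 0 := by
      intro hd
      apply hnz3
      rw [ha, hd]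
      refine ⟨by ring, by ring, by ring, by ring⟩
    refine hns3 (φ₂ (y₁ * y₁)) 0 1 hd (Or.inr one_ne_zero) ⟨by rw [ha]; ring, by ring, by ring,
      by ring⟩
  have hd : φ₂ (y₁ * y₁) ≠ 0 := by
    intro hd
    refine hns3 (φ₂ (x₁ * x₁)) 1 0 ha (Or.inl one_ne_zero) ⟨by ring, by ring, by ring,
      by rw [hd]; ring⟩
  -- every functional is a combination of the two
  obtain ⟨ψ₂, hψ₂⟩ : ∃ ψ₂ : S → k, ψ₂ = fun a => (φ₂ (x₁ * x₁))⁻¹ *
      (1 * φ₂ a + (-φ₂ (x₁ * y₁)) * φ₁ a) := ⟨_, rfl⟩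
  have hψf : FunOn res (RingHom.ker res ^ 2) ψ₂ := by
    rw [hψ₂]
    exact hφ₃.smul _
  obtain ⟨δ₀, hδ₀⟩ : ∃ δ₀ : k, δ₀ = φ₂ (y₁ * y₁) / φ₂ (x₁ * x₁) := ⟨_, rfl⟩
  have hδ₀0 : δ₀ ≠ 0 := by
    rw [hδ₀]
    exact div_ne_zero hd ha
  have g11 : ψ₂ (x₁ * x₁) = 1 := by
    rw [hψ₂]
    simp only [e11]
    field_simp
    ring
  have g12 : ψ₂ (x₁ * y₁) = 0 := by
    rw [hψ₂]
    simp only [e12]
    ring
  have g21 : ψ₂ (y₁ * x₁) = 0 := hyx ψ₂ hψf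
  have g22 : ψ₂ (y₁ * y₁) = δ₀ := by
    rw [hψ₂, hδ₀]
    simp only [e22]
    field_simp
    ring
  clear hns3 hnz3 hφ₃ hψ₂
  have hall : ∀ ψ : S → k, FunOn res (RingHom.ker res ^ 2) ψ →
      ψ (y₁ * y₁) = δ₀ * ψ (x₁ * x₁) := by
    intro ψ hψ
    by_contra hne
    have h5 : FunOn res (RingHom.ker res ^ 2) (fun a =>
        1 * (1 * ψ a + (-ψ (x₁ * y₁)) * φ₁ a) + (-ψ (x₁ * x₁)) * ψ₂ a) :=
      (hψ.comb hφ1 1 _).comb hψf 1 _
    refine B₁.nonsq hres hc hno h5 (ψ (y₁ * y₁) - δ₀ * ψ (x₁ * x₁)) 0 1 (sub_ne_zero.2 hne)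
      (Or.inr one_ne_zero) ⟨?_, ?_, ?_, ?_⟩
    · simp only [e11, g11]
      ring
    · simp only [e12, g12]
      ring
    · simp only [e21, g21, hyx ψ hψ]
      ring
    · simp only [e22, g22]
      ring
  -- elements killed by all functionals
  have hzero : ∀ w ∈ RingHom.ker res ^ 2,
      (∀ ψ : S → k, FunOn res (RingHom.ker res ^ 2) ψ → ψ w = 0) → w ∈ RingHom.ker res ^ 3 := by
    intro w hw h
    by_contra hw3
    obtain ⟨ψ, hψ, -, hψw⟩ := hsep _ cube_le_sq (le_refl _) w hw hw3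
    rw [h ψ hψ] at hψw
    exact zero_ne_one hψw
  -- the square root of `δ₀`
  obtain ⟨δ, hδ⟩ := hq 0 (-δ₀)
  have hδ1 : δ * δ = δ₀ := by linear_combination hδ
  have hδ0 : δ ≠ 0 := by
    rintro rfl
    rw [zero_mul] at hδ1
    exact hδ₀0 hδ1.symm
  obtain ⟨x₂, y₂, B₂⟩ := B₁.change hres (p := 1) (q := 0) (p' := 0) (q' := δ)
    (by rw [one_mul, mul_zero, sub_zero]; exact hδ0)
  have hx₂1 : lx₁ x₂ = 1 := by
    have := B₂.lxx
    simpa using this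
  have hx₂2 : ly₁ x₂ = 0 := by
    have := B₂.lyx
    simpa [hδ0] using this
  have hy₂1 : lx₁ y₂ = 0 := by
    have := B₂.lxy
    simpa using this
  have hy₂2 : ly₁ y₂ = δ⁻¹ := by
    have := B₂.lyy
    rw [zero_mul, zero_add] at this
    exact (eq_inv_of_mul_eq_one_right this)
  have hvals : ∀ ψ : S → k, FunOn res (RingHom.ker res ^ 2) ψ →
      ψ (x₂ * x₂) = ψ (x₁ * x₁) ∧ ψ (y₂ * x₂) = 0 ∧ ψ (y₂ * y₂) = ψ (x₁ * x₁) ∧
      ψ (x₂ * y₂) = δ⁻¹ * ψ (x₁ * y₁) := by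
    intro ψ hψ
    refine ⟨?_, ?_, ?_, ?_⟩
    · rw [B₁.pair hc hψ B₂.x0 B₂.x0, hx₂1, hx₂2]
      ring
    · rw [B₁.pair hc hψ B₂.y0 B₂.x0, hx₂1, hx₂2, hy₂1, hy₂2, hyx ψ hψ]
      ring
    · rw [B₁.pair hc hψ B₂.y0 B₂.y0, hy₂1, hy₂2, hall ψ hψ, ← hδ1]
      field_simp
      ring
    · rw [B₁.pair hc hψ B₂.x0 B₂.y0, hx₂1, hx₂2, hy₂1, hy₂2]
      ring
  have mxx : x₂ * x₂ ∈ RingHom.ker res ^ 2 := mul_mem_sq B₂.x0 B₂.x0
  have myy : y₂ * y₂ ∈ RingHom.ker res ^ 2 := mul_mem_sq B₂.y0 B₂.y0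
  have mxy : x₂ * y₂ ∈ RingHom.ker res ^ 2 := mul_mem_sq B₂.x0 B₂.y0
  refine ⟨x₂, y₂, _, _, B₂, hzero _ (mul_mem_sq B₂.y0 B₂.x0) fun ψ hψ => (hvals ψ hψ).2.1,
    hzero _ (Ideal.sub_mem _ mxx myy) fun ψ hψ => ?_, fun a b hab => ?_⟩
  · rw [hψ.sub mxx myy, (hvals ψ hψ).1, (hvals ψ hψ).2.2.1, sub_self]
  · have hm1 : a * (x₂ * x₂) ∈ RingHom.ker res ^ 2 := Ideal.mul_mem_left _ a mxx
    have hm2 : b * (x₂ * y₂) ∈ RingHom.ker res ^ 2 := Ideal.mul_mem_left _ b mxy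
    have k1 := hφ1.cube hab
    have k2 := hψf.cube hab
    rw [hφ1.add _ hm1 _ hm2, hφ1.left _ _ mxx, hφ1.left _ _ mxy, (hvals φ₁ hφ1).1,
      (hvals φ₁ hφ1).2.2.2, e11, e12] at k1
    rw [hψf.add _ hm1 _ hm2, hψf.left _ _ mxx, hψf.left _ _ mxy, (hvals ψ₂ hψf).1,
      (hvals ψ₂ hψf).2.2.2, g11, g12] at k2
    have hb0 : res b = 0 := by
      have h9 : res b * δ⁻¹ = 0 := by linear_combination k1
      exact (mul_eq_zero.1 h9).resolve_right (inv_ne_zero hδ0)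
    refine ⟨?_, hb0⟩
    rw [hb0] at k2
    linear_combination k2

end Pool.Agent.Lib.MP_8e135c_alW.Sys
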