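import Pool.Agent.Lib.MP_8e135c_alW.Funs

/-!
# The three sources of word systems

`m` is the kernel of the surjection `res : S → k`, and the center of `S` maps onto `k`.
-/

namespace Pool.Agent.Lib.MP_8e135c_alW.Sys

open MulOpposite

universe u v

variable {S : Type u} [Ring S] {k : Type v} [Field k] {res : S →+* k}

theorem ideal_sq (I : Ideal S) : I ^ 2 = I * I := by
  rw [Submodule.pow_succ, Submodule.pow_one]

theorem FunOn.sq {l : S → k} (h : FunOn res (RingHom.ker res) l) {b : S}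
    (hb : b ∈ RingHom.ker res ^ 2) : l b = 0 ∧ res b = 0 := by
  rw [ideal_sq] at hb
  refine Submodule.mul_induction_on hb (fun x hx y hy => ?_) (fun x y hx hy => ?_)
  · refine ⟨?_, ?_⟩
    · rw [h.left x y hy, RingHom.mem_ker.1 hx, zero_mul]
    · rw [map_mul, RingHom.mem_ker.1 hx, zero_mul]
  · refine ⟨?_, ?_⟩
    · rw [h.add x hx.2 y hy.2, hx.1, hy.1, add_zero]
    · rw [map_add, hx.2, hy.2, add_zero]

theorem mul_mem_sq {a b : S} (ha : res a = 0) (hb : res b = 0) : a * b ∈ RingHom.ker res ^ 2 := by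
  rw [ideal_sq]
  exact Ideal.mul_mem_mul ha hb

theorem sq_mul_mem {b : S} (hb : b ∈ RingHom.ker res ^ 2) (s : S) :
    b * s ∈ RingHom.ker res ^ 2 := by
  rw [ideal_sq] at hb ⊢
  refine Submodule.mul_induction_on hb (fun x hx y hy => ?_) (fun x y hx hy => ?_)
  · rw [mul_assoc]
    refine Ideal.mul_mem_mul hx ?_
    rw [RingHom.mem_ker, map_mul, RingHom.mem_ker.1 hy, zero_mul]
  · rw [add_mul]
    exact Ideal.add_mem _ hx hy

/-- the kernel of `res`, as a right ideal -/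
def kerR (res : S →+* k) : Submodule Sᵐᵒᵖ S where
  carrier := {a | res a = 0}
  add_mem' := by
    intro a b ha hb
    change res (a + b) = 0
    rw [map_add, ha, hb, add_zero]
  zero_mem' := map_zero res
  smul_mem' := by
    intro r a ha
    change res (a * r.unop) = 0
    rw [map_mul, ha, zero_mul]

/-- the kernel of a functional on the kernel of `res`, as a right ideal -/
def kerL {l : S → k} (h : FunOn res (RingHom.ker res) l) : Submodule Sᵐᵒᵖ S where
  carrier := {a | res a = 0 ∧ l a = 0}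
  add_mem' := by
    rintro a b ⟨ha, ha'⟩ ⟨hb, hb'⟩
    refine ⟨by rw [map_add, ha, hb, add_zero], by rw [h.add _ ha _ hb, ha', hb', add_zero]⟩
  zero_mem' := ⟨map_zero res, h.zero⟩
  smul_mem' := by
    rintro r a ⟨ha, ha'⟩
    change res (a * r.unop) = 0 ∧ l (a * r.unop) = 0
    exact ⟨by rw [map_mul, ha, zero_mul], by rw [h.right _ _ ha, ha', mul_zero]⟩

/-- three independent elements -/
theorem hasSys_of_three {x y z : S} {lx ly lz : S → k} (hx : FunOn res (RingHom.ker res) lx)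
    (hy : FunOn res (RingHom.ker res) ly) (hz : FunOn res (RingHom.ker res) lz)
    (x0 : res x = 0) (y0 : res y = 0) (z0 : res z = 0)
    (lxx : lx x = 1) (lxy : lx y = 0) (lxz : lx z = 0)
    (lyx : ly x = 0) (lyy : ly y = 1) (lyz : ly z = 0)
    (lzy : lz y = 0) (lzz : lz z = 1) : HasSys S k := by
  refine Data.hasSys (res := res) {
    x := x
    y := y
    P := z
    Q := y
    lx := lx
    ly := ly
    φ := lz
    ψ := ly
    n := kerR res
    hlx := hx
    hly := hy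
    x0 := x0
    y0 := y0
    P0 := z0
    Q0 := y0
    lxx := lxx
    lxy := lxy
    lyx := lyx
    lyy := lyy
    lxP := lxz
    lyP := lyz
    lxQ := lxy
    φadd := fun a b ha _ hb _ => hz.add a ha b hb
    φright := fun a r ha _ => hz.right r a ha
    φP := fun s => by rw [hz.left s z z0, lzz, mul_one]
    φQ := fun s => by rw [hz.left s y y0, lzy, mul_zero]
    φy := lzy
    n0 := fun a ha => ha
    nx := x0
    nP := fun s => by change res (s * z) = 0; rw [map_mul, z0, mul_zero]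
    nQ := fun s => by change res (s * y) = 0; rw [map_mul, y0, mul_zero]
    nprod := fun a b ha _ => by change res (a * b) = 0; rw [map_mul, ha, zero_mul]
    ψadd := fun a ha b hb => hy.add a ha b hb
    ψright := fun a ha r => hy.right r a ha
    ψx := lyx
    ψP := fun s => by rw [hy.left s z z0, lyz, mul_zero]
    ψQ := fun s => by rw [hy.left s y y0, lyy, mul_one] }

/-- `x`, `y` is a basis of `m / m ^ 2` with dual basis `lx`, `ly` -/
structure Basis2 (res : S →+* k) (x y : S) (lx ly : S → k) : Prop where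
  hlx : FunOn res (RingHom.ker res) lx
  hly : FunOn res (RingHom.ker res) ly
  x0 : res x = 0
  y0 : res y = 0
  lxx : lx x = 1
  lxy : lx y = 0
  lyx : ly x = 0
  lyy : ly y = 1
  span : ∀ a, res a = 0 → ∃ r s b, b ∈ RingHom.ker res ^ 2 ∧ a = x * r + y * s + b

theorem Basis2.swap {x y : S} {lx ly : S → k} (B : Basis2 res x y lx ly) :
    Basis2 res y x ly lx := by
  refine ⟨B.hly, B.hlx, B.y0, B.x0, B.lyy, B.lyx, B.lxy, B.lxx, fun a ha => ?_⟩
  obtain ⟨r, s, b, hb, h⟩ := B.span a ha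
  exact ⟨s, r, b, hb, by rw [h]; abel⟩

/-- elements in the kernel of `lx` -/
theorem Basis2.ker_lx {x y : S} {lx ly : S → k} (B : Basis2 res x y lx ly) {a : S}
    (ha : res a = 0) (hl : lx a = 0) : ∃ s b, b ∈ RingHom.ker res ^ 2 ∧ a = y * s + b := by
  obtain ⟨r, s, b, hb, h⟩ := B.span a ha
  refine ⟨s, x * r + b, ?_, by rw [h]; abel⟩
  have h1 : res (x * r) = 0 := by rw [map_mul, B.x0, zero_mul]
  have h2 : res (y * s) = 0 := by rw [map_mul, B.y0, zero_mul]
  have h3 : lx a = res r := by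
    rw [h, B.hlx.add _ (by rw [RingHom.mem_ker, map_add, h1, h2, add_zero]) _ (B.hlx.sq hb).2,
      B.hlx.add _ h1 _ h2, B.hlx.right _ _ B.x0, B.hlx.right _ _ B.y0, (B.hlx.sq hb).1, B.lxx,
      B.lxy]
    ring
  rw [hl] at h3
  exact Ideal.add_mem _ (mul_mem_sq B.x0 h3.symm) hb

/-- extension of a functional from `m ^ 2` to `y S + m ^ 2` -/
theorem exists_ext {y : S} {ly φ : S → k} (hly : FunOn res (RingHom.ker res) ly)
    (hφ : FunOn res (RingHom.ker res ^ 2) φ) (y0 : res y = 0) (lyy : ly y = 1)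
    (h0 : ∀ u, res u = 0 → φ (y * u) = 0) :
    ∃ F : S → k, ∀ r, ∀ b ∈ RingHom.ker res ^ 2, F (y * r + b) = φ b := by
  classical
  refine ⟨fun a => if h : ∃ p : S × S, p.2 ∈ RingHom.ker res ^ 2 ∧ a = y * p.1 + p.2
    then φ h.choose.2 else 0, fun r b hb => ?_⟩
  have h : ∃ p : S × S, p.2 ∈ RingHom.ker res ^ 2 ∧ y * r + b = y * p.1 + p.2 := ⟨(r, b), hb, rfl⟩
  simp only [dif_pos h]
  obtain ⟨h1, h2⟩ := h.choose_spec
  generalize h.choose = p at h1 h2
  have h3 : y * (r - p.1) = p.2 - b := by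
    rw [mul_sub, sub_eq_sub_iff_add_eq_add, h2]
    abel
  have h4 : p.2 - b ∈ RingHom.ker res ^ 2 := Ideal.sub_mem _ h1 hb
  have h5 : res (r - p.1) = 0 := by
    have h6 := hly.right (r - p.1) y y0
    rw [h3, (hly.sq h4).1, lyy, mul_one] at h6
    exact h6.symm
  have h7 := h0 _ h5
  rw [h3, hφ.sub h1 hb, sub_eq_zero] at h7
  exact h7

/-- a functional on `m ^ 2` with `φ (u v) = lx u * lx v` -/
theorem hasSys_of_square {x y : S} {lx ly φ : S → k} (B : Basis2 res x y lx ly)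
    (hc : ∀ s : S, ∃ c ∈ Subring.center S, res (s - c) = 0)
    (hφ : FunOn res (RingHom.ker res ^ 2) φ)
    (h : ∀ a b, res a = 0 → res b = 0 → φ (a * b) = lx a * lx b) : HasSys S k := by
  obtain ⟨F, hF⟩ := exists_ext B.hly hφ B.y0 B.lyy
    (fun u hu => by rw [h _ _ B.y0 hu, B.lxy, zero_mul])
  have hF2 : ∀ b ∈ RingHom.ker res ^ 2, F b = φ b := by
    intro b hb
    have := hF 0 b hb
    rwa [mul_zero, zero_add] at this
  have hxx : x * x ∈ RingHom.ker res ^ 2 := mul_mem_sq B.x0 B.x0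
  have hxx1 : φ (x * x) = 1 := by rw [h _ _ B.x0 B.x0, B.lxx, one_mul]
  refine Data.hasSys (res := res) {
    x := x
    y := y
    P := x * x
    Q := y
    lx := lx
    ly := ly
    φ := F
    ψ := ly
    n := kerR res
    hlx := B.hlx
    hly := B.hly
    x0 := B.x0
    y0 := B.y0
    P0 := (B.hlx.sq hxx).2
    Q0 := B.y0
    lxx := B.lxx
    lxy := B.lxy
    lyx := B.lyx
    lyy := B.lyy
    lxP := (B.hlx.sq hxx).1
    lyP := (B.hly.sq hxx).1
    lxQ := B.lxy
    φadd := ?_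
    φright := ?_
    φP := ?_
    φQ := ?_
    φy := ?_
    n0 := fun a ha => ha
    nx := B.x0
    nP := fun s => ?_
    nQ := fun s => ?_
    nprod := fun a b ha _ => ?_
    ψadd := fun a ha b hb => B.hly.add a ha b hb
    ψright := fun a ha r => B.hly.right r a ha
    ψx := B.lyx
    ψP := fun s => ?_
    ψQ := fun s => ?_ }
  · intro a b ha ha' hb hb'
    obtain ⟨r, c, hc1, rfl⟩ := B.ker_lx ha ha'
    obtain ⟨s, d, hd1, rfl⟩ := B.ker_lx hb hb'
    have e : y * r + c + (y * s + d) = y * (r + s) + (c + d) := by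
      rw [mul_add]; abel
    rw [e, hF _ _ hc1, hF _ _ hd1, hF _ _ (Ideal.add_mem _ hc1 hd1), hφ.add _ hc1 _ hd1]
  · intro a r ha ha'
    obtain ⟨s, d, hd1, rfl⟩ := B.ker_lx ha ha'
    rw [add_mul, mul_assoc, hF _ _ hd1, hF _ _ (sq_mul_mem hd1 r), hφ.right _ _ hd1]
  · intro s
    rw [hF2 _ (Ideal.mul_mem_left _ _ hxx), hφ.left _ _ hxx, hxx1, mul_one]
  · intro s
    obtain ⟨c, hc1, hc2⟩ := hc s
    have e : s * y = y * c + (s - c) * y := by
      rw [sub_mul, Subring.mem_center_iff.1 hc1 y]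
      abel
    rw [e, hF _ _ (mul_mem_sq hc2 B.y0), h _ _ hc2 B.y0, B.lxy, mul_zero]
  · have := hF 1 0 (Ideal.zero_mem _)
    rwa [mul_one, add_zero, hφ.zero] at this
  · change res (s * (x * x)) = 0
    rw [map_mul, (B.hlx.sq hxx).2, mul_zero]
  · change res (s * y) = 0
    rw [map_mul, B.y0, mul_zero]
  · change res (a * b) = 0
    rw [map_mul, ha, zero_mul]
  · exact (B.hly.sq (Ideal.mul_mem_left _ s hxx)).1
  · rw [B.hly.left s y B.y0, B.lyy, mul_one]

/-- two functionals on `m ^ 2` of rank one with independent first factors -/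
theorem hasSys_of_two {x y p q : S} {lx ly φ φ' μ μ' : S → k} (B : Basis2 res x y lx ly)
    (hφ : FunOn res (RingHom.ker res ^ 2) φ) (hφ' : FunOn res (RingHom.ker res ^ 2) φ')
    (h : ∀ a b, res a = 0 → res b = 0 → φ (a * b) = lx a * μ b)
    (h' : ∀ a b, res a = 0 → res b = 0 → φ' (a * b) = ly a * μ' b)
    (p0 : res p = 0) (q0 : res q = 0) (hp : μ p = 1) (hq : μ' q = 1) : HasSys S k := by
  obtain ⟨F, hF⟩ := exists_ext B.hly hφ B.y0 B.lyy
    (fun u hu => by rw [h _ _ B.y0 hu, B.lxy, zero_mul])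
  obtain ⟨G, hG⟩ := exists_ext B.hlx hφ' B.x0 B.lxx
    (fun u hu => by rw [h' _ _ B.x0 hu, B.lyx, zero_mul])
  have hF2 : ∀ b ∈ RingHom.ker res ^ 2, F b = φ b := by
    intro b hb
    have := hF 0 b hb
    rwa [mul_zero, zero_add] at this
  have hG2 : ∀ b ∈ RingHom.ker res ^ 2, G b = φ' b := by
    intro b hb
    have := hG 0 b hb
    rwa [mul_zero, zero_add] at this
  have hP : x * p ∈ RingHom.ker res ^ 2 := mul_mem_sq B.x0 p0
  have hQ : y * q ∈ RingHom.ker res ^ 2 := mul_mem_sq B.y0 q0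
  refine Data.hasSys (res := res) {
    x := x
    y := y
    P := x * p
    Q := y * q
    lx := lx
    ly := ly
    φ := F
    ψ := G
    n := kerL B.hly
    hlx := B.hlx
    hly := B.hly
    x0 := B.x0
    y0 := B.y0
    P0 := (B.hlx.sq hP).2
    Q0 := (B.hlx.sq hQ).2
    lxx := B.lxx
    lxy := B.lxy
    lyx := B.lyx
    lyy := B.lyy
    lxP := (B.hlx.sq hP).1
    lyP := (B.hly.sq hP).1
    lxQ := (B.hlx.sq hQ).1
    φadd := ?_
    φright := ?_
    φP := ?_
    φQ := ?_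
    φy := ?_
    n0 := fun a ha => ha.1
    nx := ⟨B.x0, B.lyx⟩
    nP := fun s => ?_
    nQ := fun s => ?_
    nprod := fun a b ha hb => ?_
    ψadd := ?_
    ψright := ?_
    ψx := ?_
    ψP := fun s => ?_
    ψQ := fun s => ?_ }
  · intro a b ha ha' hb hb'
    obtain ⟨r, c, hc1, rfl⟩ := B.ker_lx ha ha'
    obtain ⟨s, d, hd1, rfl⟩ := B.ker_lx hb hb'
    have e : y * r + c + (y * s + d) = y * (r + s) + (c + d) := by
      rw [mul_add]; abel
    rw [e, hF _ _ hc1, hF _ _ hd1, hF _ _ (Ideal.add_mem _ hc1 hd1), hφ.add _ hc1 _ hd1]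
  · intro a r ha ha'
    obtain ⟨s, d, hd1, rfl⟩ := B.ker_lx ha ha'
    rw [add_mul, mul_assoc, hF _ _ hd1, hF _ _ (sq_mul_mem hd1 r), hφ.right _ _ hd1]
  · intro s
    rw [hF2 _ (Ideal.mul_mem_left _ _ hP), hφ.left _ _ hP, h _ _ B.x0 p0, B.lxx, hp]
    ring
  · intro s
    rw [hF2 _ (Ideal.mul_mem_left _ _ hQ), hφ.left _ _ hQ, h _ _ B.y0 q0, B.lxy]
    ring
  · have := hF 1 0 (Ideal.zero_mem _)
    rwa [mul_one, add_zero, hφ.zero] at this
  · have h1 := Ideal.mul_mem_left _ s hP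
    exact ⟨(B.hly.sq h1).2, (B.hly.sq h1).1⟩
  · have h1 := Ideal.mul_mem_left _ s hQ
    exact ⟨(B.hly.sq h1).2, (B.hly.sq h1).1⟩
  · have h1 := mul_mem_sq ha hb
    exact ⟨(B.hly.sq h1).2, (B.hly.sq h1).1⟩
  · intro a ha b hb
    obtain ⟨r, c, hc1, rfl⟩ := B.swap.ker_lx ha.1 ha.2
    obtain ⟨s, d, hd1, rfl⟩ := B.swap.ker_lx hb.1 hb.2
    have e : x * r + c + (x * s + d) = x * (r + s) + (c + d) := by
      rw [mul_add]; abel
    rw [e, hG _ _ hc1, hG _ _ hd1, hG _ _ (Ideal.add_mem _ hc1 hd1), hφ'.add _ hc1 _ hd1]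
  · intro a ha r
    obtain ⟨s, d, hd1, rfl⟩ := B.swap.ker_lx ha.1 ha.2
    rw [add_mul, mul_assoc, hG _ _ hd1, hG _ _ (sq_mul_mem hd1 r), hφ'.right _ _ hd1]
  · have := hG 1 0 (Ideal.zero_mem _)
    rwa [mul_one, add_zero, hφ'.zero] at this
  · rw [hG2 _ (Ideal.mul_mem_left _ _ hP), hφ'.left _ _ hP, h' _ _ B.x0 p0, B.lyx]
    ring
  · rw [hG2 _ (Ideal.mul_mem_left _ _ hQ), hφ'.left _ _ hQ, h' _ _ B.y0 q0, B.lyy, hq]
    ring

end Pool.Agent.Lib.MP_8e135c_alW.Sys
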