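import Pool.Agent.Lib.MP_8e135c_alW.Sys

/-!
# Word systems from linear functionals

`S` is a ring with a surjection `res : S → k` onto a field.
-/

namespace Pool.Agent.Lib.MP_8e135c_alW.Sys

open MulOpposite

universe u v

variable {S : Type u} [Ring S] {k : Type v} [Field k]

/-- `l` is additive and two-sided linear on the ideal `I` -/
structure FunOn (res : S →+* k) (I : Ideal S) (l : S → k) : Prop where
  add : ∀ a ∈ I, ∀ b ∈ I, l (a + b) = l a + l b
  left : ∀ r, ∀ a ∈ I, l (r * a) = res r * l a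
  right : ∀ r, ∀ a ∈ I, l (a * r) = res r * l a

namespace FunOn

variable {res : S →+* k} {I : Ideal S} {l : S → k}

theorem zero (h : FunOn res I l) : l 0 = 0 := by
  have := h.left 0 0 I.zero_mem
  rwa [mul_zero, map_zero, zero_mul] at this

theorem neg (h : FunOn res I l) {a : S} (ha : a ∈ I) : l (-a) = -l a := by
  have := h.left (-1) a ha
  rwa [neg_one_mul, map_neg, map_one, neg_one_mul] at this

theorem sub (h : FunOn res I l) {a b : S} (ha : a ∈ I) (hb : b ∈ I) : l (a - b) = l a - l b := by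
  rw [sub_eq_add_neg, h.add a ha (-b) (I.neg_mem hb), h.neg hb, sub_eq_add_neg]

/-- linear combinations of functionals -/
theorem comb {l' : S → k} (h : FunOn res I l) (h' : FunOn res I l') (α β : k) :
    FunOn res I (fun a => α * l a + β * l' a) := by
  refine ⟨fun a ha b hb => ?_, fun r a ha => ?_, fun r a ha => ?_⟩
  · simp only [h.add a ha b hb, h'.add a ha b hb]
    ring
  · simp only [h.left r a ha, h'.left r a ha]
    ring
  · simp only [h.right r a ha, h'.right r a ha]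
    ring

end FunOn

variable (res : S →+* k)

/-- there is a word system over `S` with the idempotent `1` -/
def HasSys (S : Type u) [Ring S] (k : Type v) [Field k] : Prop := ∃ W : WordSys S k, W.e = 1

/-- the data for a word system -/
structure Data where
  x : S
  y : S
  P : S
  Q : S
  lx : S → k
  ly : S → k
  φ : S → k
  ψ : S → k
  n : Submodule Sᵐᵒᵖ S
  hlx : FunOn res (RingHom.ker res) lx
  hly : FunOn res (RingHom.ker res) ly
  x0 : res x = 0
  y0 : res y = 0
  P0 : res P = 0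
  Q0 : res Q = 0
  lxx : lx x = 1
  lxy : lx y = 0
  lyx : ly x = 0
  lyy : ly y = 1
  lxP : lx P = 0
  lyP : ly P = 0
  lxQ : lx Q = 0
  φadd : ∀ a b, res a = 0 → lx a = 0 → res b = 0 → lx b = 0 → φ (a + b) = φ a + φ b
  φright : ∀ a r, res a = 0 → lx a = 0 → φ (a * r) = res r * φ a
  φP : ∀ s, φ (s * P) = res s
  φQ : ∀ s, φ (s * Q) = 0
  φy : φ y = 0
  n0 : ∀ a ∈ n, res a = 0
  nx : x ∈ n
  nP : ∀ s, s * P ∈ n
  nQ : ∀ s, s * Q ∈ n
  nprod : ∀ a b, res a = 0 → res b = 0 → a * b ∈ n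
  ψadd : ∀ a ∈ n, ∀ b ∈ n, ψ (a + b) = ψ a + ψ b
  ψright : ∀ a ∈ n, ∀ r, ψ (a * r) = res r * ψ a
  ψx : ψ x = 0
  ψP : ∀ s, ψ (s * P) = 0
  ψQ : ∀ s, ψ (s * Q) = res s

namespace Data

variable {res} (D : Data res)

theorem φzero : D.φ 0 = 0 := by
  have h := D.φQ 0
  rwa [zero_mul] at h

theorem ψzero : D.ψ 0 = 0 := by
  have h := D.ψP 0
  rwa [zero_mul] at h

/-- the relations of the letter `false` -/
def EA : Submodule Sᵐᵒᵖ (S × S) where
  carrier := {p | res p.1 = 0 ∧ res p.2 = 0 ∧ D.lx p.1 + D.ly p.2 = 0}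
  add_mem' := by
    rintro p q ⟨h1, h2, h3⟩ ⟨h4, h5, h6⟩
    refine ⟨by rw [Prod.fst_add, map_add, h1, h4, add_zero],
      by rw [Prod.snd_add, map_add, h2, h5, add_zero], ?_⟩
    rw [Prod.fst_add, Prod.snd_add, D.hlx.add _ h1 _ h4, D.hly.add _ h2 _ h5]
    linear_combination h3 + h6
  zero_mem' := by
    refine ⟨map_zero _, map_zero _, ?_⟩
    rw [Prod.fst_zero, Prod.snd_zero, D.hlx.zero, D.hly.zero, add_zero]
  smul_mem' := by
    rintro r p ⟨h1, h2, h3⟩
    have e1 : (r • p).1 = p.1 * r.unop := rfl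
    have e2 : (r • p).2 = p.2 * r.unop := rfl
    refine ⟨by rw [e1, map_mul, h1, zero_mul], by rw [e2, map_mul, h2, zero_mul], ?_⟩
    rw [e1, e2, D.hlx.right _ _ h1, D.hly.right _ _ h2]
    linear_combination (res r.unop) * h3

/-- the relations of the letter `true` -/
def EB : Submodule Sᵐᵒᵖ (S × S) where
  carrier := {p | res p.1 = 0 ∧ D.lx p.1 = 0 ∧ p.2 ∈ D.n ∧ D.φ p.1 + D.ψ p.2 = 0}
  add_mem' := by
    rintro p q ⟨h1, h2, h3, h4⟩ ⟨h5, h6, h7, h8⟩
    refine ⟨by rw [Prod.fst_add, map_add, h1, h5, add_zero],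
      by rw [Prod.fst_add, D.hlx.add _ h1 _ h5, h2, h6, add_zero], D.n.add_mem h3 h7, ?_⟩
    rw [Prod.fst_add, Prod.snd_add, D.φadd _ _ h1 h2 h5 h6, D.ψadd _ h3 _ h7]
    linear_combination h4 + h8
  zero_mem' := by
    refine ⟨map_zero _, D.hlx.zero, D.n.zero_mem, ?_⟩
    rw [Prod.fst_zero, Prod.snd_zero, D.φzero, D.ψzero, add_zero]
  smul_mem' := by
    rintro r p ⟨h1, h2, h3, h4⟩
    have e1 : (r • p).1 = p.1 * r.unop := rfl
    have e2 : (r • p).2 = p.2 * r.unop := rfl
    refine ⟨by rw [e1, map_mul, h1, zero_mul], by rw [e1, D.hlx.right _ _ h1, h2, mul_zero],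
      D.n.smul_mem r h3, ?_⟩
    rw [e1, e2, D.φright _ _ h1 h2, D.ψright _ h3]
    linear_combination (res r.unop) * h4

theorem mem_EA {p : S × S} : p ∈ D.EA ↔ res p.1 = 0 ∧ res p.2 = 0 ∧ D.lx p.1 + D.ly p.2 = 0 :=
  Iff.rfl

theorem mem_EB {p : S × S} :
    p ∈ D.EB ↔ res p.1 = 0 ∧ D.lx p.1 = 0 ∧ p.2 ∈ D.n ∧ D.φ p.1 + D.ψ p.2 = 0 := Iff.rfl

theorem lx_left (s : S) {a : S} (ha : res a = 0) : D.lx (s * a) = res s * D.lx a :=
  D.hlx.left s a ha

theorem ly_left (s : S) {a : S} (ha : res a = 0) : D.ly (s * a) = res s * D.ly a :=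
  D.hly.left s a ha

theorem res_mul_right (s : S) {a : S} (ha : res a = 0) : res (s * a) = 0 := by
  rw [map_mul, ha, mul_zero]

theorem lyQ_add : D.lx D.Q = 0 := D.lxQ

/-- the word system of the data -/
def sys : WordSys S k where
  e := 1
  ρ := res.toAddMonoidHom
  E := fun c => cond c D.EB D.EA
  a := fun c => cond c D.P D.x
  b := fun c => cond c D.Q D.y
  e_idem := one_mul 1
  ρ_e := map_one res
  ρ_mul := by
    intro r s
    change res (r * 1 * s) = res r * res s
    rw [mul_one, map_mul]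
  e_a := fun c => one_mul _
  e_b := fun c => one_mul _
  E_res := by
    intro c p hp
    cases c with
    | false => exact ⟨hp.1, hp.2.1⟩
    | true => exact ⟨hp.1, D.n0 _ hp.2.2.1⟩
  e_mem := by
    intro c r
    rw [sub_self, zero_mul]
    exact ⟨Submodule.zero_mem _, Submodule.zero_mem _⟩
  ab_mem := by
    intro c
    cases c with
    | false =>
      refine ⟨D.x0, ?_, ?_⟩
      · change res (-D.y) = 0
        rw [map_neg, D.y0, neg_zero]
      · change D.lx D.x + D.ly (-D.y) = 0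
        rw [D.hly.neg D.y0, D.lxx, D.lyy, add_neg_cancel]
    | true =>
      refine ⟨D.P0, D.lxP, ?_, ?_⟩
      · change -D.Q ∈ D.n
        have h := D.nQ (-1)
        rwa [neg_one_mul] at h
      · change D.φ D.P + D.ψ (-D.Q) = 0
        have h1 := D.φP 1
        have h2 := D.ψQ (-1)
        rw [one_mul, map_one] at h1
        rw [neg_one_mul, map_neg, map_one] at h2
        rw [h1, h2, add_neg_cancel]
  a_mem := by
    intro c d
    cases c with
    | false =>
      cases d with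
      | false =>
        refine ⟨map_zero res, D.x0, ?_⟩
        change D.lx 0 + D.ly D.x = 0
        rw [D.hlx.zero, D.lyx, add_zero]
      | true =>
        refine ⟨map_zero res, D.hlx.zero, D.nx, ?_⟩
        change D.φ 0 + D.ψ D.x = 0
        rw [D.φzero, D.ψx, add_zero]
    | true =>
      cases d with
      | false =>
        refine ⟨map_zero res, D.P0, ?_⟩
        change D.lx 0 + D.ly D.P = 0
        rw [D.hlx.zero, D.lyP, add_zero]
      | true =>
        have h1 := D.nP 1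
        have h2 := D.ψP 1
        rw [one_mul] at h1 h2
        refine ⟨map_zero res, D.hlx.zero, h1, ?_⟩
        change D.φ 0 + D.ψ D.P = 0
        rw [D.φzero, h2, add_zero]
  b_mem := by
    intro c d
    cases c with
    | false =>
      cases d with
      | false =>
        refine ⟨D.y0, map_zero res, ?_⟩
        change D.lx D.y + D.ly 0 = 0
        rw [D.hly.zero, D.lxy, add_zero]
      | true =>
        refine ⟨D.y0, D.lxy, D.n.zero_mem, ?_⟩
        change D.φ D.y + D.ψ 0 = 0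
        rw [D.ψzero, D.φy, add_zero]
    | true =>
      cases d with
      | false =>
        refine ⟨D.Q0, map_zero res, ?_⟩
        change D.lx D.Q + D.ly 0 = 0
        rw [D.hly.zero, D.lxQ, add_zero]
      | true =>
        have h2 := D.φQ 1
        rw [one_mul] at h2
        refine ⟨D.Q0, D.lxQ, D.n.zero_mem, ?_⟩
        change D.φ D.Q + D.ψ 0 = 0
        rw [D.ψzero, h2, add_zero]
  test := by
    intro c s₁ s₂ s₃ s₄ h
    cases c with
    | false =>
      have h3 : D.lx (s₁ * D.x - s₂ * D.y) + D.ly (s₃ * D.x - s₄ * D.y) = 0 := h.2.2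
      rw [D.hlx.sub (res_mul_right s₁ D.x0) (res_mul_right s₂ D.y0),
        D.hly.sub (res_mul_right s₃ D.x0) (res_mul_right s₄ D.y0), D.lx_left _ D.x0,
        D.lx_left _ D.y0, D.ly_left _ D.x0, D.ly_left _ D.y0, D.lxx, D.lxy, D.lyx, D.lyy] at h3
      change res s₁ = res s₄
      linear_combination h3
    | true =>
      have h3 : D.φ (s₁ * D.P - s₂ * D.Q) + D.ψ (s₃ * D.P - s₄ * D.Q) = 0 := h.2.2.2
      have h4 : D.φ (s₁ * D.P - s₂ * D.Q) = res s₁ := by
        rw [sub_eq_add_neg, ← neg_mul, D.φadd _ _ (res_mul_right s₁ D.P0)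
          (by rw [D.lx_left _ D.P0, D.lxP, mul_zero]) (res_mul_right _ D.Q0)
          (by rw [D.lx_left _ D.Q0, D.lxQ, mul_zero]), D.φP, D.φQ, add_zero]
      have h5 : D.ψ (s₃ * D.P - s₄ * D.Q) = -res s₄ := by
        rw [sub_eq_add_neg, ← neg_mul, D.ψadd _ (D.nP _) _ (D.nQ _), D.ψP, D.ψQ, map_neg,
          zero_add]
      rw [h4, h5] at h3
      change res s₁ = res s₄
      linear_combination h3
  test' := by
    intro s₁ s₂ s₃ s₄ h
    have h3 : D.lx (s₁ * D.x - s₂ * D.y) = 0 := h.2.1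
    rw [D.hlx.sub (res_mul_right s₁ D.x0) (res_mul_right s₂ D.y0), D.lx_left _ D.x0,
      D.lx_left _ D.y0, D.lxx, D.lxy] at h3
    change res s₁ = 0
    linear_combination h3
  cut := by
    intro f f' h
    refine ⟨h.1, map_zero res, ?_⟩
    have h1 : D.lx f = 0 := h.2.1
    change D.lx f + D.ly 0 = 0
    rw [h1, D.hly.zero, add_zero]
  nil := by
    intro c s₁ s₂ s₃ h₁ h₂ h₃
    have e1 : (1 : S) * s₁ * 1 * s₂ * 1 * s₃ * 1 = s₁ * s₂ * s₃ := by
      simp only [one_mul, mul_one]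
    rw [e1]
    replace h₁ : res s₁ = 0 := h₁
    replace h₂ : res s₂ = 0 := h₂
    replace h₃ : res s₃ = 0 := h₃
    have h4 : res (s₁ * s₂) = 0 := res_mul_right s₁ h₂
    have h5 : res (s₁ * s₂ * s₃) = 0 := res_mul_right _ h₃
    have h6 : D.lx (s₁ * s₂) = 0 := by rw [D.lx_left _ h₂, h₁, zero_mul]
    have h7 : D.lx (s₁ * s₂ * s₃) = 0 := by rw [D.lx_left _ h₃, h4, zero_mul]
    have h8 : D.ly (s₁ * s₂ * s₃) = 0 := by rw [D.ly_left _ h₃, h4, zero_mul]
    have h9 : D.φ (s₁ * s₂ * s₃) = 0 := by rw [D.φright _ _ h4 h6, h₃, zero_mul]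
    have h10 : D.ψ (s₁ * s₂ * s₃) = 0 := by
      rw [D.ψright _ (D.nprod _ _ h₁ h₂), h₃, zero_mul]
    cases c with
    | false =>
      refine ⟨⟨h5, map_zero res, ?_⟩, map_zero res, h5, ?_⟩
      · change D.lx (s₁ * s₂ * s₃) + D.ly 0 = 0
        rw [h7, D.hly.zero, add_zero]
      · change D.lx 0 + D.ly (s₁ * s₂ * s₃) = 0
        rw [h8, D.hlx.zero, add_zero]
    | true =>
      refine ⟨⟨h5, h7, D.n.zero_mem, ?_⟩, map_zero res, D.hlx.zero, D.nprod _ _ h4 h₃, ?_⟩
      · change D.φ (s₁ * s₂ * s₃) + D.ψ 0 = 0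
        rw [h9, D.ψzero, add_zero]
      · change D.φ 0 + D.ψ (s₁ * s₂ * s₃) = 0
        rw [h10, D.φzero, add_zero]

theorem hasSys (D : Data res) : HasSys S k := ⟨D.sys, rfl⟩

end Data

end Pool.Agent.Lib.MP_8e135c_alW.Sys
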