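import Mathlib

/-!
# Morphisms between indecomposable modules of finite length
-/

namespace Pool.Agent.Lib.MP_8e135c_alW

/-- a nonzero module without nontrivial direct decompositions -/
def Indec (S M : Type*) [Ring S] [AddCommGroup M] [Module S M] : Prop :=
  Nontrivial M ∧ ∀ p q : Submodule S M, IsCompl p q → p = ⊥ ∨ q = ⊥

variable {S A B : Type*} [Ring S] [AddCommGroup A] [Module S A] [AddCommGroup B] [Module S B]

/-- Fitting: an endomorphism of an indecomposable module of finite length is nilpotent or
bijective -/
theorem Indec.nilp_or_bij [IsArtinian S A] [IsNoetherian S A] (hA : Indec S A)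
    (f : A →ₗ[S] A) : IsNilpotent f ∨ Function.Bijective f := by
  obtain ⟨n, hn⟩ := (Filter.eventually_atTop.1 f.eventually_isCompl_ker_pow_range_pow)
  have hc : IsCompl (LinearMap.ker (f ^ (n + 1))) (LinearMap.range (f ^ (n + 1))) :=
    hn (n + 1) (by omega)
  rcases hA.2 _ _ hc with h | h
  · right
    have hinj : Function.Injective (f ^ (n + 1)) := LinearMap.ker_eq_bot.1 h
    have hinj' : Function.Injective f := by
      have h3 : f ^ (n + 1) = f ^ n * f := pow_succ f n
      intro a b hab
      apply hinj
      rw [h3, Module.End.mul_apply, Module.End.mul_apply, hab]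
    exact ⟨hinj', IsArtinian.surjective_of_injective_endomorphism f hinj'⟩
  · left
    exact ⟨n + 1, LinearMap.range_eq_bot.1 h⟩

/-- a map between indecomposable modules of finite length which are not isomorphic is radical -/
theorem Indec.bijective_one_sub [IsArtinian S A] [IsNoetherian S A]
    (hA : Indec S A) (hB : Indec S B) (hAB : IsEmpty (A ≃ₗ[S] B))
    (f : A →ₗ[S] B) (g : B →ₗ[S] A) : Function.Bijective ((LinearMap.id : A →ₗ[S] A) - g ∘ₗ f) := by
  rcases hA.nilp_or_bij (g ∘ₗ f) with h | h
  · have h1 : IsUnit (1 - (g ∘ₗ f : Module.End S A)) := h.isUnit_one_sub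
    exact (Module.End.isUnit_iff (1 - (g ∘ₗ f : Module.End S A))).1 h1
  · exfalso
    have hfi : Function.Injective f := by
      intro a b hab
      apply h.1
      simp [hab]
    let e : A ≃ₗ[S] A := LinearEquiv.ofBijective (g ∘ₗ f) h
    let g' : B →ₗ[S] A := e.symm.toLinearMap ∘ₗ g
    have hg' : g' ∘ₗ f = LinearMap.id := by
      ext a
      change e.symm (g (f a)) = a
      have : e a = g (f a) := rfl
      rw [← this, LinearEquiv.symm_apply_apply]
    have hc : IsCompl (LinearMap.range f) (LinearMap.ker g') := by
      have hg2 : ∀ a, g' (f a) = a := fun a => by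
        have := LinearMap.congr_fun hg' a
        simpa using this
      constructor
      · rw [Submodule.disjoint_def]
        rintro x ⟨a, rfl⟩ hx
        have h3 : g' (f a) = 0 := hx
        rw [hg2] at h3
        rw [h3, map_zero]
      · rw [codisjoint_iff, Submodule.eq_top_iff']
        intro x
        rw [Submodule.mem_sup]
        refine ⟨f (g' x), ⟨g' x, rfl⟩, x - f (g' x), ?_, by abel⟩
        rw [LinearMap.mem_ker, map_sub, hg2, sub_self]
    rcases hB.2 _ _ hc with h1 | h1
    · have h2 : f = 0 := LinearMap.range_eq_bot.1 h1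
      obtain ⟨a, b, hab⟩ := hA.1
      apply hab
      apply hfi
      rw [h2]
      rfl
    · have h2 : Function.Surjective f := by
        have h3 := hc.sup_eq_top
        rw [h1, sup_bot_eq] at h3
        exact LinearMap.range_eq_top.1 h3
      exact hAB.false (LinearEquiv.ofBijective f ⟨hfi, h2⟩)

end Pool.Agent.Lib.MP_8e135c_alW
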