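import Mathlib

/-!
# The radical of a category and its transfinite powers

`radical A B` is the radical of a preadditive category, `powFam I n` the usual `n`-th power of a family
of morphisms, `radPow μ` the `μ`-th power of the radical for an ordinal `μ`, with the conventions of
the problem: `rad ^ n` is the usual power for finite `n`, `rad ^ lam` is the intersection of the earlier
powers for a limit ordinal `lam`, and `rad ^ (lam + n) = (rad ^ lam) ^ (n + 1)`.
-/

open CategoryTheory

universe v u w

namespace Pool.Agent.Lib.MP_8e135c_alW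

section Defs

variable {C : Type u} [Category.{v} C] [Preadditive C]

/-- the radical: `f : A ⟶ B` such that `1 - g f` is invertible for all `g : B ⟶ A` -/
def radical (A B : C) : Set (A ⟶ B) := {f | ∀ g : B ⟶ A, IsIso (𝟙 A - f ≫ g)}

/-- the product `I J`: finite sums of composites `A ⟶ X ⟶ B`, the first factor in `J`,
the second in `I` -/
def prodFam (I J : ∀ A B : C, Set (A ⟶ B)) (A B : C) : Set (A ⟶ B) :=
  {f | ∃ s : List (A ⟶ B), (∀ k ∈ s, ∃ (X : C) (g : A ⟶ X) (h : X ⟶ B),
    g ∈ J A X ∧ h ∈ I X B ∧ k = g ≫ h) ∧ f = s.sum}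

/-- the `n`-th power of a family; the power `0` consists of all morphisms -/
def powFam (I : ∀ A B : C, Set (A ⟶ B)) : ℕ → ∀ A B : C, Set (A ⟶ B)
  | 0 => fun _ _ => Set.univ
  | 1 => I
  | n + 2 => prodFam I (powFam I (n + 1))

end Defs

/-- the limit part of an ordinal, `μ = limPart μ + finPart μ` -/
noncomputable def limPart (μ : Ordinal.{w}) : Ordinal.{w} := Ordinal.omega0 * (μ / Ordinal.omega0)

/-- the finite part of an ordinal, `μ = limPart μ + finPart μ` -/
noncomputable def finPart (μ : Ordinal.{w}) : ℕ := Cardinal.toNat (μ % Ordinal.omega0).card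

theorem limPart_add_finPart (μ : Ordinal.{w}) : limPart μ + (finPart μ : Ordinal.{w}) = μ := by
  have h1 : μ % Ordinal.omega0 < Ordinal.omega0 := Ordinal.mod_lt _ Ordinal.omega0_ne_zero
  obtain ⟨n, hn⟩ := Ordinal.lt_omega0.1 h1
  have h2 : (finPart μ : Ordinal.{w}) = μ % Ordinal.omega0 := by
    unfold finPart
    rw [hn]
    simp
  rw [h2]
  exact Ordinal.div_add_mod μ Ordinal.omega0

theorem limPart_le (μ : Ordinal.{w}) : limPart μ ≤ μ := by
  have h : limPart μ ≤ limPart μ + (finPart μ : Ordinal.{w}) := le_self_add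
  rwa [limPart_add_finPart] at h

section Pow

variable {C : Type u} [Category.{v} C] [Preadditive C]

/-- `rad ^ μ`: for finite `μ = n` the usual `n`-th power of the radical; for `μ = lam + n` with a
limit ordinal `lam` the `(n+1)`-st power of the intersection of all `rad ^ ν`, `ν < lam` -/
noncomputable def radPow : Ordinal.{w} → ∀ A B : C, Set (A ⟶ B)
  | μ => if limPart μ = 0 then powFam radical (finPart μ)
      else powFam (fun A B => {f | ∀ ν, (_h : ν < limPart μ) → f ∈ radPow ν A B}) (finPart μ + 1)
termination_by μ => μ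
decreasing_by exact lt_of_lt_of_le _h (limPart_le μ)

/-- the transfinite radical: the intersection of all powers `rad ^ μ` (here `μ` runs over the
ordinals of an arbitrary universe `w`) -/
def radInf (A B : C) : Set (A ⟶ B) := {f | ∀ μ : Ordinal.{w}, f ∈ radPow μ A B}

theorem mem_powFam_of_dense (P : ∀ A B : C, (A ⟶ B) → Prop)
    (h2 : ∀ A B f, P A B f → ∃ (X : C) (g : A ⟶ X) (h : X ⟶ B), P A X g ∧ P X B h ∧ f = g ≫ h)
    (I : ∀ A B : C, Set (A ⟶ B)) (hI : ∀ A B f, P A B f → f ∈ I A B) :
    ∀ (n : ℕ) (A B : C) (f : A ⟶ B), P A B f → f ∈ powFam I n A B := by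
  intro n
  induction n using Nat.strong_induction_on with
  | _ n ih =>
    intro A B f hf
    match n, ih with
    | 0, _ => exact Set.mem_univ _
    | 1, _ => exact hI A B f hf
    | n + 2, ih =>
      obtain ⟨X, g, h, hg, hh, rfl⟩ := h2 A B f hf
      refine ⟨[g ≫ h], ?_, by simp⟩
      intro k hk
      rw [List.mem_singleton] at hk
      exact ⟨X, g, h, ih (n + 1) (by omega) A X g hg, hI X B h hh, hk⟩

/-- a class of radical morphisms, each of which is a product of two members of the class,
lies in all transfinite powers of the radical -/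
theorem mem_radPow_of_dense (P : ∀ A B : C, (A ⟶ B) → Prop)
    (h1 : ∀ A B f, P A B f → f ∈ radical A B)
    (h2 : ∀ A B f, P A B f → ∃ (X : C) (g : A ⟶ X) (h : X ⟶ B), P A X g ∧ P X B h ∧ f = g ≫ h) :
    ∀ (μ : Ordinal.{w}) (A B : C) (f : A ⟶ B), P A B f → f ∈ radPow μ A B := by
  intro μ
  induction μ using WellFoundedLT.induction with
  | _ μ ih =>
    intro A B f hf
    rw [radPow]
    split_ifs with h0
    · exact mem_powFam_of_dense P h2 radical h1 _ A B f hf
    · refine mem_powFam_of_dense P h2 _ ?_ _ A B f hf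
      intro A B f hf ν hν
      exact ih ν (lt_of_lt_of_le hν (limPart_le μ)) A B f hf

end Pow

end Pool.Agent.Lib.MP_8e135c_alW
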