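import Pool.Agent.Lib.MP_8e135c_alW.SysHom
import Pool.Agent.Lib.MP_8e135c_alW.Rad

/-!
# A dense family of homomorphisms between the modules of words of a word system
-/

namespace Pool.Agent.Lib.MP_8e135c_alW.Sys

open MulOpposite

universe u v

/-- the condition under which cutting at `ℓ` is a homomorphism -/
def Cut (ℓ : ℕ) (w w' : List Bool) : Prop :=
  (∀ i < ℓ, w[i]? = w'[i]?) ∧
    ((w[ℓ]? = some true ∧ w'[ℓ]? ≠ some true) ∨ (w[ℓ]? = some false ∧ w'[ℓ]? = none))

theorem Cut.lt {ℓ : ℕ} {w w' : List Bool} (h : Cut ℓ w w') : ℓ < w.length := by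
  rcases h.2 with h | h
  · exact getElem?_lt h.1
  · exact getElem?_lt h.1

theorem Cut.le {ℓ : ℕ} {w w' : List Bool} (h : Cut ℓ w w') : ℓ ≤ w'.length := by
  by_contra hc
  have h1 := h.1 w'.length (by omega)
  rw [List.getElem?_eq_none (le_refl _), List.getElem?_eq_none_iff] at h1
  have := h.lt
  omega

theorem Cut.ne {ℓ : ℕ} {w w' : List Bool} (h : Cut ℓ w w') : w ≠ w' := by
  rintro rfl
  rcases h.2 with h | h
  · exact h.2 h.1
  · rw [h.1] at h
    exact absurd h.2 (by simp)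

theorem Cut.of_false {ℓ : ℕ} {w w' : List Bool} (h : Cut ℓ w w') (h1 : w'[ℓ]? = some false) :
    w[ℓ]? = some true := by
  rcases h.2 with h | h
  · exact h.1
  · rw [h.2] at h1
    exact absurd h1 (by simp)

theorem Cut.not_true {ℓ : ℕ} {w w' : List Bool} (h : Cut ℓ w w') : w'[ℓ]? ≠ some true := by
  rcases h.2 with h | h
  · exact h.2
  · rw [h.2]
    simp

/-- the words ending in `true` -/
def EndsTrue (w : List Bool) : Prop := ∃ i, i + 1 = w.length ∧ w[i]? = some true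

/-- the order of words is dense at words ending in `true` -/
theorem Cut.interp {ℓ : ℕ} {w w' : List Bool} (h : Cut ℓ w w') (hw : EndsTrue w) :
    ∃ (w₀ : List Bool) (ℓ₁ ℓ₂ : ℕ), EndsTrue w₀ ∧ Cut ℓ₁ w w₀ ∧ Cut ℓ₂ w₀ w' ∧
      ℓ = min ℓ₁ ℓ₂ := by
  classical
  have hlt := h.lt
  have hle := h.le
  obtain ⟨e, he, het⟩ := hw
  let w₀ : List Bool := w' ++ (List.replicate w.length false ++ [true])
  have hw1 : ∀ i, i < w'.length → w₀[i]? = w'[i]? := fun i hi =>
    List.getElem?_append_left hi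
  have hw2 : ∀ i, w'.length ≤ i → i < w'.length + w.length → w₀[i]? = some false := by
    intro i h1 h2
    rw [List.getElem?_append_right h1, List.getElem?_append_left (by simp; omega),
      List.getElem?_replicate, if_pos (by omega)]
  have hw3 : EndsTrue w₀ := by
    refine ⟨w'.length + w.length, by simp [w₀]; omega, ?_⟩
    rw [List.getElem?_append_right (by omega), List.getElem?_append_right (by simp)]
    simp
  have hc2 : Cut w'.length w₀ w' := by
    refine ⟨hw1, Or.inr ⟨hw2 _ (le_refl _) (by omega), List.getElem?_eq_none (le_refl _)⟩⟩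
  -- the first place `q ≥ ℓ` with `w_q = true`
  have hex : ∃ q, ℓ ≤ q ∧ w[q]? = some true := ⟨e, by omega, het⟩
  rcases lt_or_eq_of_le hle with hl | hl
  · refine ⟨w₀, ℓ, w'.length, hw3, ⟨fun i hi => ?_, Or.inl ⟨?_, ?_⟩⟩, hc2, by omega⟩
    · rw [hw1 i (by omega)]
      exact h.1 i hi
    · rcases h.2 with h1 | h1
      · exact h1.1
      · rw [List.getElem?_eq_none_iff] at h1
        omega
    · rw [hw1 ℓ hl]
      exact h.not_true
  · have hq := Nat.find_spec hex
    have hq' := fun m => Nat.find_min (H := hex) (m := m)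
    generalize Nat.find hex = q at hq hq'
    have hqe : q < w.length := getElem?_lt hq.2
    refine ⟨w₀, q, w'.length, hw3, ⟨fun i hi => ?_, Or.inl ⟨hq.2, ?_⟩⟩, hc2, by omega⟩
    · rcases lt_or_ge i ℓ with h1 | h1
      · rw [hw1 i (by omega)]
        exact h.1 i h1
      · rw [hw2 i (by omega) (by omega)]
        have h2 : w[i]? ≠ some true := fun h3 => hq' i hi ⟨h1, h3⟩
        have h4 : i < w.length := by omega
        rw [List.getElem?_eq_getElem h4] at h2 ⊢
        cases hb : w[i] with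
        | false => rfl
        | true => rw [hb] at h2; exact absurd rfl h2
    · rw [hw2 q (by omega) (by omega)]
      simp

theorem cut_start : Cut 0 [true] [] := ⟨fun i hi => absurd hi (by omega), Or.inl ⟨rfl, by simp⟩⟩

theorem endsTrue_start : EndsTrue [true] := ⟨0, rfl, rfl⟩


variable {R : Type u} [Ring R] {k : Type v} [Ring k] (W : WordSys R k)

namespace WordSys

/-- the projection to the first coordinates -/
def proj (R : Type u) [Ring R] (ℓ : ℕ) : (ℕ → R) →ₗ[Rᵐᵒᵖ] (ℕ → R) where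
  toFun f := fun j => if j ≤ ℓ then f j else 0
  map_add' f g := by
    ext j
    simp only [Pi.add_apply]
    split_ifs
    · rfl
    · rw [add_zero]
  map_smul' r f := by
    ext j
    simp only [Pi.smul_apply, RingHom.id_apply]
    split_ifs
    · rfl
    · rw [smul_zero]

theorem proj_apply (ℓ : ℕ) (f : ℕ → R) (j : ℕ) : proj R ℓ f j = if j ≤ ℓ then f j else 0 := rfl

theorem rel_le_comap {ℓ : ℕ} {w w' : List Bool} (h : Cut ℓ w w') :
    W.rel w ≤ (W.rel w').comap (proj R ℓ) := by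
  intro f hf
  have hlt := h.lt
  have hle := h.le
  rw [Submodule.mem_comap, W.mem_rel]
  rw [W.mem_rel] at hf
  refine ⟨fun j hj r => ?_, fun j c hj => ?_⟩
  · rw [proj_apply]
    split_ifs with h1
    · exact hf.1 j (by omega) r
    · rw [zero_mul, map_zero]
  · rw [proj_apply, proj_apply]
    rcases lt_trichotomy j ℓ with h1 | rfl | h1
    · rw [if_pos (by omega), if_pos (by omega)]
      exact hf.2 j c (by rw [h.1 j h1, hj])
    · rw [if_pos (le_refl _), if_neg (by omega)]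
      rcases h.2 with h2 | h2
      · have hc : c = false := by
          cases c with
          | false => rfl
          | true => exact absurd hj h2.2
        subst hc
        exact W.cut _ _ (hf.2 j true h2.1)
      · rw [h2.2] at hj
        exact absurd hj (by simp)
    · rw [if_neg (by omega), if_neg (by omega)]
      exact W.zero_mem c

/-- cutting at `ℓ` -/
def cutMap {ℓ : ℕ} {w w' : List Bool} (h : Cut ℓ w w') : W.Mw w →ₗ[Rᵐᵒᵖ] W.Mw w' :=
  Submodule.mapQ (W.rel w) (W.rel w') (proj R ℓ) (W.rel_le_comap h)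

theorem cutMap_cl {ℓ : ℕ} {w w' : List Bool} (h : Cut ℓ w w') (f : ℕ → R) :
    W.cutMap h (W.cl w f) = W.cl w' (proj R ℓ f) := rfl

theorem cutMap_ne_zero [Nontrivial k] {ℓ : ℕ} {w w' : List Bool} (h : Cut ℓ w w') :
    W.cutMap h ≠ 0 := by
  intro h0
  have h1 := LinearMap.congr_fun h0 (W.t w 0)
  have h2 := congrArg (fun m => W.top m 0) h1
  change W.top (W.cutMap h (W.cl w (Pi.single 0 W.e))) 0 = W.top (0 : W.Mw w') 0 at h2
  rw [W.cutMap_cl, W.top_cl _ (Nat.zero_le _), W.top_zero (Nat.zero_le _), proj_apply,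
    if_pos (Nat.zero_le _), Pi.single_eq_same, W.ρ_e] at h2
  exact one_ne_zero h2

theorem cutMap_comp {ℓ ℓ₁ ℓ₂ : ℕ} {w w₀ w' : List Bool} (h : Cut ℓ w w') (h₁ : Cut ℓ₁ w w₀)
    (h₂ : Cut ℓ₂ w₀ w') (hl : ℓ = min ℓ₁ ℓ₂) :
    W.cutMap h₂ ∘ₗ W.cutMap h₁ = W.cutMap h := by
  refine LinearMap.ext fun m => ?_
  obtain ⟨f, rfl⟩ := Submodule.Quotient.mk_surjective (W.rel w) m
  rw [LinearMap.comp_apply]
  change W.cl w' (proj R ℓ₂ (proj R ℓ₁ f)) = W.cl w' (proj R ℓ f)
  have h3 : proj R ℓ₂ (proj R ℓ₁ f) = proj R ℓ f := by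
    ext j
    rw [proj_apply, proj_apply, proj_apply]
    by_cases h4 : j ≤ ℓ₂
    · by_cases h5 : j ≤ ℓ₁
      · rw [if_pos h4, if_pos h5, if_pos (by omega)]
      · rw [if_pos h4, if_neg h5, if_neg (by omega)]
    · rw [if_neg h4, if_neg (by omega)]
  rw [h3]

end WordSys

section Category

open CategoryTheory

/-- the object of the word `w` -/
noncomputable abbrev obj (w : List Bool) : FGModuleCat.{u} Rᵐᵒᵖ := FGModuleCat.of Rᵐᵒᵖ (W.Mw w)

/-- the class of the maps `cutMap` from words which end in `true` -/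
inductive Cls : ∀ (A B : FGModuleCat.{u} Rᵐᵒᵖ), (A ⟶ B) → Prop
  | mk {ℓ : ℕ} {w w' : List Bool} (h : Cut ℓ w w') (hw : EndsTrue w) :
      Cls (obj W w) (obj W w') (FGModuleCat.ofHom (W.cutMap h))

theorem cls_radical [IsDomain k] [IsArtinianRing Rᵐᵒᵖ] (A B : FGModuleCat.{u} Rᵐᵒᵖ) (f : A ⟶ B) (hf : Cls W A B f) :
    f ∈ radical A B := by
  obtain ⟨h, hw⟩ := hf
  rename_i ℓ w w'
  intro g
  have hne : IsEmpty (W.Mw w ≃ₗ[Rᵐᵒᵖ] W.Mw w') := ⟨fun e => h.ne (W.eq_of_equiv e)⟩
  have h1 := Indec.bijective_one_sub (W.indec w) (W.indec w') hne (W.cutMap h) g.hom.hom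
  have h2 : (𝟙 (obj W w) - (FGModuleCat.ofHom (W.cutMap h) : obj W w ⟶ obj W w') ≫ g) =
      (LinearEquiv.ofBijective _ h1).toFGModuleCatIso.hom := by
    rfl
  rw [h2]
  infer_instance

theorem cls_dense (A B : FGModuleCat.{u} Rᵐᵒᵖ) (f : A ⟶ B) (hf : Cls W A B f) :
    ∃ (X : FGModuleCat.{u} Rᵐᵒᵖ) (g : A ⟶ X) (h : X ⟶ B), Cls W A X g ∧ Cls W X B h ∧
      f = g ≫ h := by
  obtain ⟨h, hw⟩ := hf
  rename_i ℓ w w'
  obtain ⟨w₀, ℓ₁, ℓ₂, h0, h1, h2, hl⟩ := h.interp hw
  refine ⟨obj W w₀, FGModuleCat.ofHom (W.cutMap h1), FGModuleCat.ofHom (W.cutMap h2),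
    Cls.mk h1 hw, Cls.mk h2 h0, ?_⟩
  rw [← W.cutMap_comp h h1 h2 hl]
  rfl

/-- a word system produces a nonzero morphism in the transfinite radical -/
theorem exists_radInf_ne_zero [IsDomain k] [IsArtinianRing Rᵐᵒᵖ] (W : WordSys R k) : ∃ (A B : FGModuleCat.{u} Rᵐᵒᵖ) (f : A ⟶ B),
    f ∈ radInf.{u, u + 1} A B ∧ f ≠ 0 := by
  refine ⟨obj W [true], obj W [], FGModuleCat.ofHom (W.cutMap cut_start), ?_, ?_⟩
  · intro μ
    exact mem_radPow_of_dense (Cls W) (cls_radical W) (cls_dense W) μ _ _ _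
      (Cls.mk cut_start endsTrue_start)
  · intro h
    apply W.cutMap_ne_zero cut_start
    have h1 := congrArg (fun f => f.hom.hom) h
    exact h1

end Category

end Pool.Agent.Lib.MP_8e135c_alW.Sys
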