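import Pool.Agent.Lib.MP_8e135c_alW.Ext
import Pool.Agent.Lib.MP_8e135c_alW.SysCut

/-!
# From a word system over a corner `e R e` to a word system over `R`
-/

namespace Pool.Agent.Lib.MP_8e135c_alW.Sys

open MulOpposite

universe u v

variable {R : Type u} [Ring R] {e : R} (he : IsIdempotentElem e)

/-- the element `e r e` of the corner -/
def toC (r : R) : he.Corner := ⟨e * r * e, r, rfl⟩

theorem C_left (s : he.Corner) : e * s.1 = s.1 := ((Subsemigroup.mem_corner_iff he).1 s.2).1

theorem C_right (s : he.Corner) : s.1 * e = s.1 := ((Subsemigroup.mem_corner_iff he).1 s.2).2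

theorem C_mul_val (s t : he.Corner) : (s * t).1 = s.1 * t.1 := rfl

theorem C_add_val (s t : he.Corner) : (s + t).1 = s.1 + t.1 := rfl

theorem C_neg_val (s : he.Corner) : (-s).1 = -s.1 := rfl

theorem C_zero_val : (0 : he.Corner).1 = 0 := rfl

theorem C_one_val : (1 : he.Corner).1 = e := rfl

theorem C_ext {s t : he.Corner} (h : s.1 = t.1) : s = t := Subtype.ext h

theorem toC_add (r s : R) : toC he (r + s) = toC he r + toC he s := by
  apply C_ext
  rw [C_add_val]
  change e * (r + s) * e = e * r * e + e * s * e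
  rw [mul_add, add_mul]

theorem toC_zero : toC he 0 = 0 := by
  apply C_ext
  change e * 0 * e = 0
  rw [mul_zero, zero_mul]

theorem toC_neg (r : R) : toC he (-r) = -toC he r := by
  apply C_ext
  rw [C_neg_val]
  change e * (-r) * e = -(e * r * e)
  rw [mul_neg, neg_mul]

theorem toC_sub (r s : R) : toC he (r - s) = toC he r - toC he s := by
  rw [sub_eq_add_neg, toC_add, toC_neg, sub_eq_add_neg]

theorem toC_mul (r s : R) : toC he (r * e * s) = toC he r * toC he s := by
  apply C_ext
  rw [C_mul_val]
  change e * (r * e * s) * e = e * r * e * (e * s * e)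
  have h : e * (e * (s * e)) = e * (s * e) := by rw [← mul_assoc, he.eq]
  simp only [mul_assoc, h]

theorem toC_coe (s : he.Corner) : toC he s.1 = s := by
  apply C_ext
  change e * s.1 * e = s.1
  rw [C_left, C_right]

theorem toC_coe_mul (s : he.Corner) (r : R) : toC he (s.1 * r) = s * toC he r := by
  have h : s.1 * r = s.1 * e * r := by rw [C_right]
  rw [h, toC_mul, toC_coe]

theorem toC_mul_coe (r : R) (s : he.Corner) : toC he (r * s.1) = toC he r * s := by
  have h : r * s.1 = r * e * s.1 := by rw [mul_assoc, C_left]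
  rw [h, toC_mul, toC_coe]

theorem toC_one_sub (r : R) : toC he ((1 - e) * r) = 0 := by
  apply C_ext
  change e * ((1 - e) * r) * e = 0
  rw [← mul_assoc, mul_sub, mul_one, he.eq, sub_self, zero_mul, zero_mul]

variable {k : Type v} [Ring k] (W : WordSys he.Corner k)

/-- the relations, lifted to `R` -/
def liftE (c : Bool) : Submodule Rᵐᵒᵖ (R × R) where
  carrier := {p | ∀ r, (toC he (p.1 * r), toC he (p.2 * r)) ∈ W.E c}
  add_mem' := by
    intro p q hp hq r
    have h := (W.E c).add_mem (hp r) (hq r)
    rw [Prod.mk_add_mk, ← toC_add, ← toC_add, ← add_mul, ← add_mul] at h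
    exact h
  zero_mem' := by
    intro r
    rw [Prod.fst_zero, Prod.snd_zero, zero_mul, toC_zero]
    exact W.zero_mem c
  smul_mem' := by
    intro s p hp r
    have h := hp (s.unop * r)
    rw [← mul_assoc, ← mul_assoc] at h
    exact h

theorem mem_liftE {c : Bool} {p : R × R} :
    p ∈ liftE he W c ↔ ∀ r, (toC he (p.1 * r), toC he (p.2 * r)) ∈ W.E c := Iff.rfl

theorem liftE_one {c : Bool} {p : R × R} (hp : p ∈ liftE he W c) :
    (toC he p.1, toC he p.2) ∈ W.E c := by
  have h := hp 1
  rwa [mul_one, mul_one] at h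

theorem coe_mem_liftE {c : Bool} {s t : he.Corner} (h : (s, t) ∈ W.E c) :
    (s.1, t.1) ∈ liftE he W c := by
  intro r
  rw [toC_coe_mul, toC_coe_mul]
  exact (W.E c).smul_mem (op (toC he r)) h

/-- the word system over `R` -/
def liftSys (hW : W.e = 1) : WordSys R k where
  e := e
  ρ := {
    toFun := fun r => W.ρ (toC he r)
    map_zero' := by rw [toC_zero, map_zero]
    map_add' := fun r s => by rw [toC_add, map_add] }
  E := liftE he W
  a := fun c => (W.a c).1
  b := fun c => (W.b c).1
  e_idem := he.eq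
  ρ_e := by
    change W.ρ (toC he e) = 1
    have h : toC he e = 1 := toC_coe he 1
    rw [h, ← hW, W.ρ_e]
  ρ_mul := by
    intro r s
    change W.ρ (toC he (r * e * s)) = W.ρ (toC he r) * W.ρ (toC he s)
    have h := W.ρ_mul (toC he r) (toC he s)
    rw [hW, mul_one] at h
    rw [toC_mul, h]
  e_a := fun c => C_left he _
  e_b := fun c => C_left he _
  E_res := fun c p hp => W.E_res c _ (liftE_one he W hp)
  e_mem := by
    intro c r
    refine ⟨fun s => ?_, fun s => ?_⟩
    · change (toC he ((1 - e) * r * s), toC he (0 * s)) ∈ W.E c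
      rw [mul_assoc, toC_one_sub, zero_mul, toC_zero]
      exact W.zero_mem c
    · change (toC he (0 * s), toC he ((1 - e) * r * s)) ∈ W.E c
      rw [mul_assoc, toC_one_sub, zero_mul, toC_zero]
      exact W.zero_mem c
  ab_mem := fun c => coe_mem_liftE he W (W.ab_mem c)
  a_mem := fun c d => coe_mem_liftE he W (W.a_mem c d)
  b_mem := fun c d => coe_mem_liftE he W (W.b_mem c d)
  test := by
    intro c s₁ s₂ s₃ s₄ h
    have h1 := liftE_one he W h
    simp only [toC_sub, toC_mul_coe] at h1
    exact W.test c _ _ _ _ h1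
  test' := by
    intro s₁ s₂ s₃ s₄ h
    have h1 := liftE_one he W h
    simp only [toC_sub, toC_mul_coe] at h1
    exact W.test' _ _ _ _ h1
  cut := by
    intro f f' h r
    have h1 := W.cut _ _ (h r)
    change (toC he (f * r), toC he (0 * r)) ∈ W.E false
    rw [zero_mul, toC_zero]
    exact h1
  nil := by
    intro c s₁ s₂ s₃ h₁ h₂ h₃
    have h := W.nil c (toC he s₁) (toC he s₂) (toC he s₃) h₁ h₂ h₃
    rw [hW] at h
    have e1 : (1 : he.Corner) * toC he s₁ * 1 * toC he s₂ * 1 * toC he s₃ * 1 =
        toC he s₁ * toC he s₂ * toC he s₃ := by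
      simp only [one_mul, mul_one]
    rw [e1] at h
    have e2 : e * s₁ * e * s₂ * e * s₃ * e = (toC he s₁ * toC he s₂ * toC he s₃).1 := by
      rw [C_mul_val, C_mul_val]
      change e * s₁ * e * s₂ * e * s₃ * e = e * s₁ * e * (e * s₂ * e) * (e * s₃ * e)
      have h3 : ∀ x : R, e * (e * x) = e * x := fun x => by rw [← mul_assoc, he.eq]
      simp only [mul_assoc, h3]
    rw [e2]
    exact ⟨coe_mem_liftE he W h.1, coe_mem_liftE he W h.2⟩

open CategoryTheory in
/-- a word system over a corner of `R` produces a nonzero morphism in the transfinite radical -/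
theorem exists_radInf_of_corner {F : Type v} [Field F] [IsArtinianRing Rᵐᵒᵖ]
    (h : HasSys he.Corner F) : ∃ (A B : FGModuleCat.{u} Rᵐᵒᵖ) (f : A ⟶ B),
      f ∈ radInf A B ∧ f ≠ 0 := by
  obtain ⟨W, hW⟩ := h
  exact exists_radInf_ne_zero (liftSys he W hW)

end Pool.Agent.Lib.MP_8e135c_alW.Sys
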