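import Pool.Agent.Lib.MP_8e135c_alW.ClassB

/-!
# The classification of the corners without word systems
-/

namespace Pool.Agent.Lib.MP_8e135c_alW.Sys

universe u v

variable {S : Type u} [Ring S] {k : Type v} [Field k] {res : S →+* k}

theorem classification (hres : Function.Surjective res)
    (hc : ∀ s : S, ∃ c ∈ Subring.center S, res (s - c) = 0)
    (hq : ∀ α β : k, ∃ τ : k, τ * τ + α * τ + β = 0) (hno : ¬ HasSys S k) :
    (∃ x ∈ RingHom.ker res, RingHom.ker res ≤ Ideal.span {x} ⊔ RingHom.ker res ^ 2) ∨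
    (∃ x ∈ RingHom.ker res, ∃ y ∈ RingHom.ker res,
      RingHom.ker res ≤ Ideal.span {x, y} ⊔ RingHom.ker res ^ 2 ∧
      RingHom.ker res ^ 2 = RingHom.ker res ^ 3) ∨
    (∃ x ∈ RingHom.ker res, ∃ y ∈ RingHom.ker res, ∃ s ∈ RingHom.ker res ^ 2,
      RingHom.ker res ≤ Ideal.span {x, y} ⊔ RingHom.ker res ^ 2 ∧
      RingHom.ker res ^ 2 ≤ Ideal.span {s} ⊔ RingHom.ker res ^ 3 ∧
      RingHom.ker res ^ 3 = RingHom.ker res ^ 4 ∧
      ∀ z ∈ RingHom.ker res, (∀ w ∈ RingHom.ker res, z * w ∈ RingHom.ker res ^ 3 ∧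
        w * z ∈ RingHom.ker res ^ 3) → z ∈ RingHom.ker res ^ 2) ∨
    (∃ x ∈ RingHom.ker res, ∃ y ∈ RingHom.ker res,
      RingHom.ker res ≤ Ideal.span {x, y} ⊔ RingHom.ker res ^ 2 ∧
      y * x ∈ RingHom.ker res ^ 3 ∧ x * x - y * y ∈ RingHom.ker res ^ 3 ∧
      x * y - y * x ∉ RingHom.ker res ^ 3 ∧
      ∀ r t, r * (x * x) + t * (x * y) ∈ RingHom.ker res ^ 3 →
        r ∈ RingHom.ker res ∧ t ∈ RingHom.ker res) := by
  by_cases h1 : ∃ x, res x = 0 ∧ RingHom.ker res ≤ Ideal.span {x} ⊔ RingHom.ker res ^ 2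
  · exact Or.inl h1
  · right
    obtain ⟨x, y, lx, ly, B⟩ := exists_basis hres hc hno h1
    by_cases h2 : RingHom.ker res ^ 2 ≤ RingHom.ker res ^ 3
    · exact Or.inl ⟨x, B.x0, y, B.y0, B.span_left hc, le_antisymm h2 cube_le_sq⟩
    · right
      obtain ⟨s, hs, hs3⟩ := Set.not_subset.1 h2
      replace hs : s ∈ RingHom.ker res ^ 2 := hs
      replace hs3 : s ∉ RingHom.ker res ^ 3 := hs3
      by_cases h3 : RingHom.ker res ^ 2 ≤ Ideal.span {s} ⊔ RingHom.ker res ^ 3
      · left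
        obtain ⟨φ, hφ, -, hφs⟩ := sep hres hc (RingHom.ker res ^ 2) (RingHom.ker res ^ 3)
          cube_le_sq (fun s hs a ha => mul_mem_cube hs ha) (fun s hs a ha => mul_mem_cube' ha hs)
          hs hs3
        obtain ⟨h4, h5⟩ := B.case_one hres hc hno hφ hs hφs h3
        refine ⟨x, B.x0, y, B.y0, s, hs, B.span_left hc, h3, le_antisymm h4 ?_, h5⟩
        rw [Ideal.IsTwoSided.pow_succ]
        exact Ideal.mul_le.2 fun r _ s hs => Ideal.mul_mem_left _ r hs
      · right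
        obtain ⟨x', y', lx', ly', B', g1, g2, g3⟩ := B.case_two hres hc hq hno hs hs3 h3
        refine ⟨x', B'.x0, y', B'.y0, B'.span_left hc, g1, g2, fun h => ?_, g3⟩
        have h6 : (0 : S) * (x' * x') + 1 * (x' * y') ∈ RingHom.ker res ^ 3 := by
          have e : (0 : S) * (x' * x') + 1 * (x' * y') = (x' * y' - y' * x') + y' * x' := by
            rw [zero_mul, zero_add, one_mul]
            abel
          rw [e]
          exact Ideal.add_mem _ h g1
        have h7 := (g3 0 1 h6).2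
        rw [map_one] at h7
        exact one_ne_zero h7

end Pool.Agent.Lib.MP_8e135c_alW.Sys
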