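import Pool.Agent.Lib.MP_8e135c_alW.Ext

/-!
# Separation by functionals, bases of `m / m ^ 2`
-/

namespace Pool.Agent.Lib.MP_8e135c_alW.Sys

universe u v

variable {S : Type u} [Ring S] {k : Type v} [Field k] {res : S →+* k}

theorem ideal_cube (I : Ideal S) : I ^ 3 = I ^ 2 * I := Submodule.pow_succ I

theorem ideal_four (I : Ideal S) : I ^ 4 = I ^ 3 * I := Submodule.pow_succ I

theorem ker_mul_sq_le : RingHom.ker res * RingHom.ker res ^ 2 ≤ RingHom.ker res ^ 3 := by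
  rw [← Ideal.IsTwoSided.pow_succ]

theorem mul_mem_cube {a b : S} (ha : res a = 0) (hb : b ∈ RingHom.ker res ^ 2) :
    a * b ∈ RingHom.ker res ^ 3 :=
  ker_mul_sq_le (Ideal.mul_mem_mul ha hb)

theorem mul_mem_cube' {a b : S} (ha : a ∈ RingHom.ker res ^ 2) (hb : res b = 0) :
    a * b ∈ RingHom.ker res ^ 3 := by
  rw [ideal_cube]
  exact Ideal.mul_mem_mul ha hb

theorem mul_mem_four {a b : S} (ha : res a = 0) (hb : b ∈ RingHom.ker res ^ 3) :
    a * b ∈ RingHom.ker res ^ 4 := by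
  have h : RingHom.ker res * RingHom.ker res ^ 3 ≤ RingHom.ker res ^ 4 := by
    rw [← Ideal.IsTwoSided.pow_succ]
  exact h (Ideal.mul_mem_mul ha hb)

theorem mul_mem_four' {a b : S} (ha : a ∈ RingHom.ker res ^ 3) (hb : res b = 0) :
    a * b ∈ RingHom.ker res ^ 4 := by
  rw [ideal_four]
  exact Ideal.mul_mem_mul ha hb

theorem sq_le_ker : RingHom.ker res ^ 2 ≤ RingHom.ker res := by
  rw [ideal_sq]
  exact Ideal.mul_le.2 fun r _ s hs => Ideal.mul_mem_left _ r hs

theorem cube_le_sq : RingHom.ker res ^ 3 ≤ RingHom.ker res ^ 2 := by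
  rw [Ideal.IsTwoSided.pow_succ]
  exact Ideal.mul_le.2 fun r _ s hs => Ideal.mul_mem_left _ r hs

/-- separation by functionals -/
theorem sep (hres : Function.Surjective res)
    (hc : ∀ s : S, ∃ c ∈ Subring.center S, res (s - c) = 0) (I N : Ideal S) (hNI : N ≤ I)
    (h1 : ∀ s, res s = 0 → ∀ a ∈ I, s * a ∈ N) (h2 : ∀ s, res s = 0 → ∀ a ∈ I, a * s ∈ N)
    {z : S} (hz : z ∈ I) (hzN : z ∉ N) :
    ∃ l : S → k, FunOn res I l ∧ (∀ a ∈ N, l a = 0) ∧ l z = 1 := by
  classical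
  let V := ↥I ⧸ (Submodule.comap I.subtype N)
  let _ : SMul k V := ⟨fun c v => Function.surjInv hres c • v⟩
  have key : ∀ s, res s = 0 → ∀ v : V, s • v = 0 := by
    intro s hs v
    obtain ⟨a, rfl⟩ := Submodule.Quotient.mk_surjective _ v
    rw [← Submodule.Quotient.mk_smul, Submodule.Quotient.mk_eq_zero]
    exact h1 s hs a.1 a.2
  have hsmul : ∀ (c : S) (v : V), res c • v = c • v := by
    intro c v
    have h3 : (Function.surjInv hres (res c) - c) • v = 0 := by
      refine key _ ?_ v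
      rw [map_sub, Function.surjInv_eq hres, sub_self]
    rw [sub_smul, sub_eq_zero] at h3
    exact h3
  let _ : Module k V := Function.Surjective.moduleLeft res hres hsmul
  let q : ↥I → V := fun a => Submodule.Quotient.mk a
  have hz0 : q ⟨z, hz⟩ ∉ (⊥ : Submodule k V) := by
    intro h
    rw [Submodule.mem_bot] at h
    have h3 : (⟨z, hz⟩ : ↥I) ∈ Submodule.comap I.subtype N := (Submodule.Quotient.mk_eq_zero _).1 h
    exact hzN h3
  obtain ⟨f, hf, -⟩ := Submodule.exists_le_ker_of_notMem hz0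
  let l : S → k := fun a => if h : a ∈ I then (f (q ⟨z, hz⟩))⁻¹ * f (q ⟨a, h⟩) else 0
  have hl : ∀ a (h : a ∈ I), l a = (f (q ⟨z, hz⟩))⁻¹ * f (q ⟨a, h⟩) := fun a h => dif_pos h
  have hN : ∀ a ∈ N, l a = 0 := by
    intro a ha
    rw [hl a (hNI ha)]
    have h3 : q ⟨a, hNI ha⟩ = 0 := (Submodule.Quotient.mk_eq_zero _).2 ha
    rw [h3, map_zero, mul_zero]
  have hadd : ∀ a ∈ I, ∀ b ∈ I, l (a + b) = l a + l b := by
    intro a ha b hb
    rw [hl a ha, hl b hb, hl _ (I.add_mem ha hb)]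
    have h3 : q ⟨a + b, I.add_mem ha hb⟩ = q ⟨a, ha⟩ + q ⟨b, hb⟩ := rfl
    rw [h3, map_add, mul_add]
  have hleft : ∀ r, ∀ a ∈ I, l (r * a) = res r * l a := by
    intro r a ha
    rw [hl a ha, hl _ (I.mul_mem_left r ha)]
    have h3 : q ⟨r * a, I.mul_mem_left r ha⟩ = r • q ⟨a, ha⟩ := rfl
    rw [h3, ← hsmul, map_smul, smul_eq_mul]
    ring
  refine ⟨l, ⟨hadd, hleft, ?_⟩, hN, ?_⟩
  · intro r a ha
    obtain ⟨c, hc1, hc2⟩ := hc r
    have e : a * r = c * a + a * (r - c) := by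
      rw [mul_sub, Subring.mem_center_iff.1 hc1 a]
      abel
    have h3 : a * (r - c) ∈ N := h2 _ hc2 a ha
    rw [e, hadd _ (I.mul_mem_left c ha) _ (hNI h3), hN _ h3, hleft c a ha, add_zero]
    rw [map_sub, sub_eq_zero] at hc2
    rw [hc2]
  · rw [hl z hz, inv_mul_cancel₀ hf]

theorem FunOn.cube {φ : S → k} (h : FunOn res (RingHom.ker res ^ 2) φ) {b : S}
    (hb : b ∈ RingHom.ker res ^ 3) : φ b = 0 := by
  rw [ideal_cube] at hb
  have h1 : φ b = 0 ∧ b ∈ RingHom.ker res ^ 2 := by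
    refine Submodule.mul_induction_on hb (fun x hx y hy => ?_) (fun x y hx hy => ?_)
    · refine ⟨?_, sq_mul_mem hx y⟩
      rw [h.right y x hx, RingHom.mem_ker.1 hy, zero_mul]
    · exact ⟨by rw [h.add x hx.2 y hy.2, hx.1, hy.1, add_zero], Ideal.add_mem _ hx.2 hy.2⟩
  exact h1.1

theorem FunOn.eq_zero {φ : S → k} (h : FunOn res (RingHom.ker res ^ 2) φ)
    (h0 : ∀ a b, res a = 0 → res b = 0 → φ (a * b) = 0) {u : S}
    (hu : u ∈ RingHom.ker res ^ 2) : φ u = 0 := by
  have hu' := hu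
  rw [ideal_sq] at hu'
  have h1 : φ u = 0 ∧ u ∈ RingHom.ker res ^ 2 := by
    refine Submodule.mul_induction_on hu' (fun x hx y hy => ?_) (fun x y hx hy => ?_)
    · exact ⟨h0 x y hx hy, mul_mem_sq hx hy⟩
    · exact ⟨by rw [h.add x hx.2 y hy.2, hx.1, hy.1, add_zero], Ideal.add_mem _ hx.2 hy.2⟩
  exact h1.1

/-- `a ↦ φ (a b)` is linear -/
theorem FunOn.pairL {φ : S → k} (h : FunOn res (RingHom.ker res ^ 2) φ)
    (hc : ∀ s : S, ∃ c ∈ Subring.center S, res (s - c) = 0) {b : S} (hb : res b = 0) :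
    FunOn res (RingHom.ker res) (fun a => φ (a * b)) := by
  refine ⟨fun a ha a' ha' => ?_, fun r a ha => ?_, fun r a ha => ?_⟩
  · rw [add_mul, h.add _ (mul_mem_sq ha hb) _ (mul_mem_sq ha' hb)]
  · rw [mul_assoc, h.left _ _ (mul_mem_sq ha hb)]
  · obtain ⟨c, hc1, hc2⟩ := hc r
    have e : a * r * b = c * (a * b) + a * ((r - c) * b) := by
      have h3 : a * c = c * a := Subring.mem_center_iff.1 hc1 a
      rw [sub_mul, mul_sub, ← mul_assoc a c b, h3, mul_assoc, mul_assoc]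
      abel
    have h4 : a * ((r - c) * b) ∈ RingHom.ker res ^ 3 := mul_mem_cube ha (mul_mem_sq hc2 hb)
    rw [e, h.add _ (Ideal.mul_mem_left _ _ (mul_mem_sq ha hb)) _ (cube_le_sq h4), h.cube h4,
      h.left _ _ (mul_mem_sq ha hb), add_zero]
    rw [map_sub, sub_eq_zero] at hc2
    rw [hc2]

/-- `b ↦ φ (a b)` is linear -/
theorem FunOn.pairR {φ : S → k} (h : FunOn res (RingHom.ker res ^ 2) φ)
    (hc : ∀ s : S, ∃ c ∈ Subring.center S, res (s - c) = 0) {a : S} (ha : res a = 0) :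
    FunOn res (RingHom.ker res) (fun b => φ (a * b)) := by
  refine ⟨fun b hb b' hb' => ?_, fun r b hb => ?_, fun r b hb => ?_⟩
  · rw [mul_add, h.add _ (mul_mem_sq ha hb) _ (mul_mem_sq ha hb')]
  · rw [← mul_assoc]
    exact (h.pairL hc hb).right r a ha
  · rw [← mul_assoc, h.right _ _ (mul_mem_sq ha hb)]

/-- a basis from its dual basis -/
theorem Basis2.mk' (hres : Function.Surjective res) {x y : S} {lx ly : S → k}
    (hlx : FunOn res (RingHom.ker res) lx) (hly : FunOn res (RingHom.ker res) ly)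
    (x0 : res x = 0) (y0 : res y = 0) (lxx : lx x = 1) (lxy : lx y = 0) (lyx : ly x = 0)
    (lyy : ly y = 1)
    (hk : ∀ a, res a = 0 → lx a = 0 → ly a = 0 → a ∈ RingHom.ker res ^ 2) :
    Basis2 res x y lx ly := by
  refine ⟨hlx, hly, x0, y0, lxx, lxy, lyx, lyy, fun a ha => ?_⟩
  obtain ⟨r, hr⟩ := hres (lx a)
  obtain ⟨s, hs⟩ := hres (ly a)
  have h1 : res (x * r) = 0 := by rw [map_mul, x0, zero_mul]
  have h2 : res (y * s) = 0 := by rw [map_mul, y0, zero_mul]
  have h3 : res (x * r + y * s) = 0 := by rw [map_add, h1, h2, add_zero]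
  refine ⟨r, s, a - (x * r + y * s), hk _ ?_ ?_ ?_, by abel⟩
  · rw [map_sub, ha, h3, sub_zero]
  · rw [hlx.sub ha h3, hlx.add _ h1 _ h2, hlx.right _ _ x0, hlx.right _ _ y0, hr, lxx, lxy]
    ring
  · rw [hly.sub ha h3, hly.add _ h1 _ h2, hly.right _ _ x0, hly.right _ _ y0, hs, lyx, lyy]
    ring

namespace Basis2

variable {x y : S} {lx ly : S → k} (B : Basis2 res x y lx ly)

include B

theorem ker_mem {a : S} (ha : res a = 0) (h1 : lx a = 0) (h2 : ly a = 0) :
    a ∈ RingHom.ker res ^ 2 := by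
  obtain ⟨s, b, hb, rfl⟩ := B.ker_lx ha h1
  have h3 : res (y * s) = 0 := by rw [map_mul, B.y0, zero_mul]
  rw [B.hly.add _ h3 _ (B.hly.sq hb).2, B.hly.right _ _ B.y0, B.lyy, (B.hly.sq hb).1] at h2
  have h4 : res s = 0 := by linear_combination h2
  exact Ideal.add_mem _ (mul_mem_sq B.y0 h4) hb

theorem expand {l : S → k} (hl : FunOn res (RingHom.ker res) l) {a : S} (ha : res a = 0) :
    l a = lx a * l x + ly a * l y := by
  obtain ⟨r, s, b, hb, rfl⟩ := B.span a ha
  have h1 : res (x * r) = 0 := by rw [map_mul, B.x0, zero_mul]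
  have h2 : res (y * s) = 0 := by rw [map_mul, B.y0, zero_mul]
  have h3 : res (x * r + y * s) = 0 := by rw [map_add, h1, h2, add_zero]
  have h4 : ∀ l : S → k, FunOn res (RingHom.ker res) l →
      l (x * r + y * s + b) = res r * l x + res s * l y := by
    intro l hl
    rw [hl.add _ h3 _ (hl.sq hb).2, hl.add _ h1 _ h2, hl.right _ _ B.x0, hl.right _ _ B.y0,
      (hl.sq hb).1, add_zero]
  rw [h4 l hl, h4 lx B.hlx, h4 ly B.hly, B.lxx, B.lxy, B.lyx, B.lyy]
  ring

/-- the form of a functional on `m ^ 2` -/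
theorem pair (hc : ∀ s : S, ∃ c ∈ Subring.center S, res (s - c) = 0) {φ : S → k}
    (h : FunOn res (RingHom.ker res ^ 2) φ) {a b : S} (ha : res a = 0) (hb : res b = 0) :
    φ (a * b) = lx a * lx b * φ (x * x) + lx a * ly b * φ (x * y) + ly a * lx b * φ (y * x) +
      ly a * ly b * φ (y * y) := by
  have h1 := B.expand (h.pairL hc hb) ha
  have h2 := B.expand (h.pairR hc B.x0) hb
  have h3 := B.expand (h.pairR hc B.y0) hb
  rw [h1, h2, h3]
  ring

/-- change of basis -/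
theorem change (hres : Function.Surjective res) {p q p' q' : k} (hD : p * q' - q * p' ≠ 0) :
    ∃ x' y', Basis2 res x' y' (fun a => p * lx a + q * ly a) (fun a => p' * lx a + q' * ly a) := by
  obtain ⟨c1, h1⟩ := hres (q' / (p * q' - q * p'))
  obtain ⟨c2, h2⟩ := hres (-p' / (p * q' - q * p'))
  obtain ⟨c3, h3⟩ := hres (-q / (p * q' - q * p'))
  obtain ⟨c4, h4⟩ := hres (p / (p * q' - q * p'))
  have hDi : (p * q' - q * p') * (p * q' - q * p')⁻¹ = 1 := mul_inv_cancel₀ hD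
  have hv : ∀ (l : S → k), FunOn res (RingHom.ker res) l → ∀ c d : S,
      l (x * c + y * d) = res c * l x + res d * l y := by
    intro l hl c d
    have e1 : res (x * c) = 0 := by rw [map_mul, B.x0, zero_mul]
    have e2 : res (y * d) = 0 := by rw [map_mul, B.y0, zero_mul]
    rw [hl.add _ e1 _ e2, hl.right _ _ B.x0, hl.right _ _ B.y0]
  have hr : ∀ c d : S, res (x * c + y * d) = 0 := by
    intro c d
    rw [map_add, map_mul, map_mul, B.x0, B.y0, zero_mul, zero_mul, add_zero]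
  refine ⟨x * c1 + y * c2, x * c3 + y * c4, Basis2.mk' hres (B.hlx.comb B.hly p q)
    (B.hlx.comb B.hly p' q') (hr _ _) (hr _ _) ?_ ?_ ?_ ?_ ?_⟩
  · simp only [hv lx B.hlx, hv ly B.hly, B.lxx, B.lxy, B.lyx, B.lyy, h1, h2, div_eq_mul_inv]
    linear_combination hDi
  · simp only [hv lx B.hlx, hv ly B.hly, B.lxx, B.lxy, B.lyx, B.lyy, h3, h4, div_eq_mul_inv]
    ring
  · simp only [hv lx B.hlx, hv ly B.hly, B.lxx, B.lxy, B.lyx, B.lyy, h1, h2, div_eq_mul_inv]
    ring
  · simp only [hv lx B.hlx, hv ly B.hly, B.lxx, B.lxy, B.lyx, B.lyy, h3, h4, div_eq_mul_inv]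
    linear_combination hDi
  · intro a ha e1 e2
    have e3 : (p * q' - q * p') * lx a = 0 := by linear_combination q' * e1 - q * e2
    have e4 : (p * q' - q * p') * ly a = 0 := by linear_combination p * e2 - p' * e1
    exact B.ker_mem ha ((mul_eq_zero.1 e3).resolve_left hD) ((mul_eq_zero.1 e4).resolve_left hD)

/-- a functional which is not zero takes the value one -/
theorem exists_val (hres : Function.Surjective res) {r s : k} (h : r ≠ 0 ∨ s ≠ 0) :
    ∃ p, res p = 0 ∧ r * lx p + s * ly p = 1 := by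
  rcases h with h | h
  · obtain ⟨c, hc⟩ := hres r⁻¹
    refine ⟨x * c, by rw [map_mul, B.x0, zero_mul], ?_⟩
    rw [B.hlx.right _ _ B.x0, B.hly.right _ _ B.x0, B.lxx, B.lyx, hc]
    field_simp
    ring
  · obtain ⟨c, hc⟩ := hres s⁻¹
    refine ⟨y * c, by rw [map_mul, B.y0, zero_mul], ?_⟩
    rw [B.hlx.right _ _ B.y0, B.hly.right _ _ B.y0, B.lxy, B.lyy, hc]
    field_simp
    ring

/-- a functional whose form is a square -/
theorem hasSys_square (hres : Function.Surjective res)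
    (hc : ∀ s : S, ∃ c ∈ Subring.center S, res (s - c) = 0) {φ : S → k}
    (h : FunOn res (RingHom.ker res ^ 2) φ) {γ p q : k} (hγ : γ ≠ 0) (hpq : p ≠ 0 ∨ q ≠ 0)
    (h11 : φ (x * x) = γ * p * p) (h12 : φ (x * y) = γ * p * q) (h21 : φ (y * x) = γ * q * p)
    (h22 : φ (y * y) = γ * q * q) : HasSys S k := by
  have h0 : ∀ a b, res a = 0 → res b = 0 →
      γ⁻¹ * φ (a * b) = (p * lx a + q * ly a) * (p * lx b + q * ly b) := by
    intro a b ha hb
    rw [B.pair hc h ha hb, h11, h12, h21, h22]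
    field_simp
    ring
  have hφ : FunOn res (RingHom.ker res ^ 2) (fun a => γ⁻¹ * φ a) := by
    have := h.comb h γ⁻¹ 0
    simpa only [zero_mul, add_zero] using this
  rcases hpq with hp | hq
  · obtain ⟨x', y', B'⟩ := B.change hres (p := p) (q := q) (p' := 0) (q' := 1)
      (by rw [mul_one, mul_zero, sub_zero]; exact hp)
    exact hasSys_of_square B' hc hφ h0
  · obtain ⟨x', y', B'⟩ := B.change hres (p := p) (q := q) (p' := -1) (q' := 0)
      (by rw [mul_zero, zero_sub, mul_neg, mul_one, neg_neg]; exact hq)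
    exact hasSys_of_square B' hc hφ h0

/-- two functionals with forms of rank one -/
theorem hasSys_two (hres : Function.Surjective res)
    (hc : ∀ s : S, ∃ c ∈ Subring.center S, res (s - c) = 0) {φ φ' : S → k}
    (h : FunOn res (RingHom.ker res ^ 2) φ) (h' : FunOn res (RingHom.ker res ^ 2) φ')
    {p q r s p' q' r' s' : k} (hD : p * q' - q * p' ≠ 0) (hrs : r ≠ 0 ∨ s ≠ 0)
    (hrs' : r' ≠ 0 ∨ s' ≠ 0)
    (h11 : φ (x * x) = p * r) (h12 : φ (x * y) = p * s) (h21 : φ (y * x) = q * r)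
    (h22 : φ (y * y) = q * s)
    (h11' : φ' (x * x) = p' * r') (h12' : φ' (x * y) = p' * s') (h21' : φ' (y * x) = q' * r')
    (h22' : φ' (y * y) = q' * s') : HasSys S k := by
  obtain ⟨x', y', B'⟩ := B.change hres hD
  obtain ⟨u, hu0, hu⟩ := B.exists_val hres hrs
  obtain ⟨v, hv0, hv⟩ := B.exists_val hres hrs'
  refine hasSys_of_two (μ := fun a => r * lx a + s * ly a) (μ' := fun a => r' * lx a + s' * ly a)
    B' h h' (fun a b ha hb => ?_) (fun a b ha hb => ?_) hu0 hv0 hu hv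
  · rw [B.pair hc h ha hb, h11, h12, h21, h22]
    ring
  · rw [B.pair hc h' ha hb, h11', h12', h21', h22']
    ring

end Basis2

end Pool.Agent.Lib.MP_8e135c_alW.Sys
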