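import Mathlib

/-!
# Modules of words over a ring with a word system

`WordSys R k` collects the data with which a right `R`-module `Mw W w` can be attached to every word
`w` in two letters: `e` is an idempotent, `ρ : R → k` is the residue map of the corner `e R e` (extended
by zero), and for every letter there is a right submodule `E c` of `R × R` and a pair of elements
`a c`, `b c`.  `Mw W w` is the quotient of `(e R) ^ (n + 1)` with generators `t_0, ..., t_n` and the
relations `∑ t_j f_j = 0` for all `f` with `(f_j, f_(j+1)) ∈ E (w_j)`, in particular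
`t_j a(w_j) = t_(j+1) b(w_j)`.
-/

namespace Pool.Agent.Lib.MP_8e135c_alW.Sys

open MulOpposite

universe u v

/-- the data of a word system -/
structure WordSys (R : Type u) [Ring R] (k : Type v) [Ring k] where
  e : R
  ρ : R →+ k
  E : Bool → Submodule Rᵐᵒᵖ (R × R)
  a : Bool → R
  b : Bool → R
  e_idem : e * e = e
  ρ_e : ρ e = 1
  ρ_mul : ∀ r s, ρ (r * e * s) = ρ r * ρ s
  e_a : ∀ c, e * a c = a c
  e_b : ∀ c, e * b c = b c
  E_res : ∀ c p, p ∈ E c → ρ p.1 = 0 ∧ ρ p.2 = 0
  e_mem : ∀ c r, ((1 - e) * r, 0) ∈ E c ∧ (0, (1 - e) * r) ∈ E c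
  ab_mem : ∀ c, (a c, -b c) ∈ E c
  a_mem : ∀ c d, (0, a c) ∈ E d
  b_mem : ∀ c d, (b c, 0) ∈ E d
  test : ∀ c s₁ s₂ s₃ s₄, (s₁ * a c - s₂ * b c, s₃ * a c - s₄ * b c) ∈ E c → ρ s₁ = ρ s₄
  test' : ∀ s₁ s₂ s₃ s₄,
    (s₁ * a false - s₂ * b false, s₃ * a false - s₄ * b false) ∈ E true → ρ s₁ = 0
  cut : ∀ f f', (f, f') ∈ E true → (f, 0) ∈ E false
  nil : ∀ c s₁ s₂ s₃, ρ s₁ = 0 → ρ s₂ = 0 → ρ s₃ = 0 →
    (e * s₁ * e * s₂ * e * s₃ * e, 0) ∈ E c ∧ (0, e * s₁ * e * s₂ * e * s₃ * e) ∈ E c

theorem getElem?_lt {w : List Bool} {j : ℕ} {b : Bool} (h : w[j]? = some b) : j < w.length := by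
  by_contra hc
  rw [List.getElem?_eq_none (by omega)] at h
  exact absurd h (by simp)

variable {R : Type u} [Ring R] {k : Type v} [Ring k] (W : WordSys R k)

namespace WordSys

theorem ρ_e_mul (r : R) : W.ρ (W.e * r) = W.ρ r := by
  have h := W.ρ_mul W.e r
  rwa [W.e_idem, W.ρ_e, one_mul] at h

theorem ρ_mul_e (r : R) : W.ρ (r * W.e) = W.ρ r := by
  have h := W.ρ_mul r W.e
  rwa [mul_assoc, W.e_idem, W.ρ_e, mul_one] at h

theorem E_res_mul {c : Bool} {p : R × R} (hp : p ∈ W.E c) (r : R) :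
    W.ρ (p.1 * r) = 0 ∧ W.ρ (p.2 * r) = 0 :=
  W.E_res c _ ((W.E c).smul_mem (op r) hp)

theorem ρ_a (c : Bool) (r : R) : W.ρ (W.a c * r) = 0 := (W.E_res_mul (W.a_mem c false) r).2

theorem ρ_b (c : Bool) (r : R) : W.ρ (W.b c * r) = 0 := (W.E_res_mul (W.b_mem c false) r).1

theorem ρ_one_sub (r s : R) : W.ρ ((1 - W.e) * r * s) = 0 := by
  rw [mul_assoc, sub_mul, one_mul, map_sub, W.ρ_e_mul, sub_self]

theorem zero_mem (c : Bool) : ((0 : R), (0 : R)) ∈ W.E c := (W.E c).zero_mem

theorem a_mem' (c d : Bool) : ((0 : R), W.a c) ∈ W.E d := W.a_mem c d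

theorem b_mem' (c d : Bool) : (-W.b c, (0 : R)) ∈ W.E d := by
  have h := (W.E d).neg_mem (W.b_mem c d)
  rwa [Prod.neg_mk, neg_zero] at h

/-- the relations of the module of the word `w` -/
def rel (w : List Bool) : Submodule Rᵐᵒᵖ (ℕ → R) where
  carrier := {f | (∀ j ≤ w.length, ∀ r, W.ρ (f j * r) = 0) ∧
    ∀ j c, w[j]? = some c → (f j, f (j + 1)) ∈ W.E c}
  add_mem' := by
    rintro f g ⟨h1, h2⟩ ⟨h3, h4⟩
    refine ⟨fun j hj r => ?_, fun j c hj => ?_⟩
    · rw [Pi.add_apply, add_mul, map_add, h1 j hj, h3 j hj, add_zero]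
    · exact (W.E c).add_mem (h2 j c hj) (h4 j c hj)
  zero_mem' := by
    refine ⟨fun j _ r => ?_, fun j c _ => ?_⟩
    · rw [Pi.zero_apply, zero_mul, map_zero]
    · exact W.zero_mem c
  smul_mem' := by
    rintro s f ⟨h1, h2⟩
    refine ⟨fun j hj r => ?_, fun j c hj => ?_⟩
    · have h3 : (s • f) j * r = f j * (s.unop * r) := by
        rw [Pi.smul_apply, MulOpposite.smul_eq_mul_unop, mul_assoc]
      rw [h3]
      exact h1 j hj _
    · exact (W.E c).smul_mem s (h2 j c hj)

theorem mem_rel {w : List Bool} {f : ℕ → R} : f ∈ W.rel w ↔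
    (∀ j ≤ w.length, ∀ r, W.ρ (f j * r) = 0) ∧
    ∀ j c, w[j]? = some c → (f j, f (j + 1)) ∈ W.E c := Iff.rfl

/-- the module of the word `w` -/
abbrev Mw (w : List Bool) : Type u := (ℕ → R) ⧸ W.rel w

/-- the class of a function -/
abbrev cl (w : List Bool) (f : ℕ → R) : W.Mw w := Submodule.Quotient.mk f

/-- a representative -/
noncomputable def rep {w : List Bool} (m : W.Mw w) : ℕ → R :=
  Function.surjInv (Submodule.Quotient.mk_surjective (W.rel w)) m

theorem cl_rep {w : List Bool} (m : W.Mw w) : W.cl w (W.rep m) = m :=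
  Function.surjInv_eq (Submodule.Quotient.mk_surjective (W.rel w)) m

/-- the coordinates of an element in the top of the module -/
noncomputable def top {w : List Bool} (m : W.Mw w) (j : ℕ) : k := W.ρ (W.rep m j)

theorem top_cl {w : List Bool} (f : ℕ → R) {j : ℕ} (hj : j ≤ w.length) :
    W.top (W.cl w f) j = W.ρ (f j) := by
  have h1 : W.cl w (W.rep (W.cl w f)) = W.cl w f := W.cl_rep _
  have h2 := ((W.mem_rel).1 ((Submodule.Quotient.eq _).1 h1)).1 j hj 1
  rw [mul_one, Pi.sub_apply, map_sub, sub_eq_zero] at h2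
  exact h2

theorem top_add {w : List Bool} (m m' : W.Mw w) {j : ℕ} (hj : j ≤ w.length) :
    W.top (m + m') j = W.top m j + W.top m' j := by
  have h : W.cl w (W.rep m + W.rep m') = m + m' :=
    congrArg₂ (fun a b => a + b) (W.cl_rep m) (W.cl_rep m')
  rw [← h, W.top_cl _ hj, Pi.add_apply, map_add]
  rfl

theorem top_sub {w : List Bool} (m m' : W.Mw w) {j : ℕ} (hj : j ≤ w.length) :
    W.top (m - m') j = W.top m j - W.top m' j := by
  have h : W.cl w (W.rep m - W.rep m') = m - m' :=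
    congrArg₂ (fun a b => a - b) (W.cl_rep m) (W.cl_rep m')
  rw [← h, W.top_cl _ hj, Pi.sub_apply, map_sub]
  rfl

theorem top_zero {w : List Bool} {j : ℕ} (hj : j ≤ w.length) : W.top (0 : W.Mw w) j = 0 := by
  have h : W.cl w 0 = 0 := Submodule.Quotient.mk_zero _
  rw [← h, W.top_cl _ hj, Pi.zero_apply, map_zero]

theorem top_sum {w : List Bool} {ι : Type*} (s : Finset ι) (f : ι → W.Mw w) {j : ℕ}
    (hj : j ≤ w.length) : W.top (∑ i ∈ s, f i) j = ∑ i ∈ s, W.top (f i) j := by
  classical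
  induction s using Finset.induction_on with
  | empty => rw [Finset.sum_empty, Finset.sum_empty, W.top_zero hj]
  | insert a s ha ih => rw [Finset.sum_insert ha, Finset.sum_insert ha, W.top_add _ _ hj, ih]

/-- the generators -/
noncomputable def t (w : List Bool) (i : ℕ) : W.Mw w := W.cl w (Pi.single i W.e)

theorem smul_t (w : List Bool) (i : ℕ) (r : R) :
    op r • W.t w i = W.cl w (Pi.single i (W.e * r)) := by
  have h : op r • (Pi.single i W.e : ℕ → R) = Pi.single i (W.e * r) := by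
    ext j
    rw [Pi.smul_apply, op_smul_eq_mul]
    rcases eq_or_ne j i with rfl | hj
    · rw [Pi.single_eq_same, Pi.single_eq_same]
    · rw [Pi.single_eq_of_ne hj, Pi.single_eq_of_ne hj, zero_mul]
  rw [← h]
  rfl

theorem smul_e_t (w : List Bool) (i : ℕ) : op W.e • W.t w i = W.t w i := by
  rw [W.smul_t, W.e_idem]
  rfl

theorem smul_e_mul_t (w : List Bool) (i : ℕ) (r : R) :
    op (W.e * r) • W.t w i = op r • W.t w i := by
  rw [W.smul_t, W.smul_t, ← mul_assoc, W.e_idem]

theorem top_t {w : List Bool} (i : ℕ) {j : ℕ} (hj : j ≤ w.length) :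
    W.top (W.t w i) j = if j = i then 1 else 0 := by
  rw [t, W.top_cl _ hj]
  rcases eq_or_ne j i with rfl | h
  · rw [Pi.single_eq_same, W.ρ_e, if_pos rfl]
  · rw [Pi.single_eq_of_ne h, map_zero, if_neg h]

/-- the generators generate -/
theorem expand {w : List Bool} (f : ℕ → R) :
    W.cl w f = ∑ j ∈ Finset.range (w.length + 1), op (f j) • W.t w j := by
  have h1 : (∑ j ∈ Finset.range (w.length + 1), op (f j) • W.t w j) =
      W.cl w (∑ j ∈ Finset.range (w.length + 1), Pi.single j (W.e * f j)) := by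
    rw [show W.cl w (∑ j ∈ Finset.range (w.length + 1), Pi.single j (W.e * f j)) =
      ∑ j ∈ Finset.range (w.length + 1), W.cl w (Pi.single j (W.e * f j)) from
      map_sum (W.rel w).mkQ _ _]
    exact Finset.sum_congr rfl fun j _ => W.smul_t w j _
  rw [h1, Submodule.Quotient.eq, W.mem_rel]
  have h2 : ∀ j, j ≤ w.length → (f - ∑ i ∈ Finset.range (w.length + 1),
      (Pi.single i (W.e * f i) : ℕ → R)) j = (1 - W.e) * f j := by
    intro j hj
    rw [Pi.sub_apply, Finset.sum_apply, Finset.sum_eq_single j]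
    · rw [Pi.single_eq_same, sub_mul, one_mul]
    · intro i _ hi
      exact Pi.single_eq_of_ne hi.symm _
    · intro h
      exact absurd (Finset.mem_range.2 (by omega)) h
  refine ⟨fun j hj r => ?_, fun j c hj => ?_⟩
  · rw [h2 j hj, W.ρ_one_sub]
  · have h3 := getElem?_lt hj
    rw [h2 j (by omega), h2 (j + 1) (by omega)]
    have h4 := (W.E c).add_mem (W.e_mem c (f j)).1 (W.e_mem c (f (j + 1))).2
    rwa [Prod.mk_add_mk, add_zero, zero_add] at h4

theorem expand' {w : List Bool} (m : W.Mw w) :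
    m = ∑ j ∈ Finset.range (w.length + 1), op (W.rep m j) • W.t w j := by
  rw [← W.expand, W.cl_rep]

/-- the relation of a letter -/
theorem rel_letter {w : List Bool} {i : ℕ} {c : Bool} (h : w[i]? = some c) :
    op (W.a c) • W.t w i = op (W.b c) • W.t w (i + 1) := by
  rw [W.smul_t, W.smul_t, Submodule.Quotient.eq, W.mem_rel, W.e_a, W.e_b]
  have hv : ∀ j, ((Pi.single i (W.a c) : ℕ → R) - (Pi.single (i + 1) (W.b c) : ℕ → R)) j =
      if j = i then W.a c else if j = i + 1 then -W.b c else 0 := by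
    intro j
    rw [Pi.sub_apply]
    rcases eq_or_ne j i with rfl | h1
    · rw [Pi.single_eq_same, Pi.single_eq_of_ne (by omega), if_pos rfl, sub_zero]
    · rw [Pi.single_eq_of_ne h1, if_neg h1]
      rcases eq_or_ne j (i + 1) with rfl | h2
      · rw [Pi.single_eq_same, if_pos rfl, zero_sub]
      · rw [Pi.single_eq_of_ne h2, if_neg h2, sub_zero]
  refine ⟨fun j _ r => ?_, fun j d hj => ?_⟩
  · rw [hv]
    split_ifs
    · exact W.ρ_a c r
    · rw [neg_mul, map_neg, W.ρ_b, neg_zero]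
    · rw [zero_mul, map_zero]
  · rw [hv, hv]
    rcases lt_trichotomy j i with h1 | rfl | h1
    · rw [if_neg (by omega : ¬ j = i), if_neg (by omega : ¬ j = i + 1)]
      rcases eq_or_ne (j + 1) i with h2 | h2
      · rw [if_pos h2]
        exact W.a_mem c d
      · rw [if_neg h2, if_neg (by omega : ¬ j + 1 = i + 1)]
        exact W.zero_mem d
    · rw [if_pos rfl, if_neg (by omega : ¬ j + 1 = j), if_pos rfl]
      rw [h] at hj
      obtain rfl := Option.some.inj hj
      exact W.ab_mem c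
    · rw [if_neg (by omega : ¬ j = i), if_neg (by omega : ¬ j + 1 = i),
        if_neg (by omega : ¬ j + 1 = i + 1)]
      split_ifs
      · exact W.b_mem' c d
      · exact W.zero_mem d

/-- the relation at the end -/
theorem rel_end {w : List Bool} {i : ℕ} (c : Bool) (h : w[i]? = none) :
    op (W.a c) • W.t w i = 0 := by
  rw [W.smul_t, W.e_a, Submodule.Quotient.mk_eq_zero, W.mem_rel]
  refine ⟨fun j _ r => ?_, fun j d hj => ?_⟩
  · rcases eq_or_ne j i with rfl | h1
    · rw [Pi.single_eq_same]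
      exact W.ρ_a c r
    · rw [Pi.single_eq_of_ne h1, zero_mul, map_zero]
  · have h1 : j ≠ i := by
      rintro rfl
      rw [h] at hj
      exact absurd hj (by simp)
    rw [Pi.single_eq_of_ne h1]
    rcases eq_or_ne (j + 1) i with rfl | h2
    · rw [Pi.single_eq_same]
      exact W.a_mem c d
    · rw [Pi.single_eq_of_ne h2]
      exact W.zero_mem d

theorem t_big {w : List Bool} {i : ℕ} (h : w.length < i) : W.t w i = 0 := by
  rw [t, Submodule.Quotient.mk_eq_zero, W.mem_rel]
  refine ⟨fun j hj r => ?_, fun j d hj => ?_⟩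
  · rw [Pi.single_eq_of_ne (by omega), zero_mul, map_zero]
  · have := getElem?_lt hj
    rw [Pi.single_eq_of_ne (by omega), Pi.single_eq_of_ne (by omega)]
    exact W.zero_mem d

end WordSys

end Pool.Agent.Lib.MP_8e135c_alW.Sys
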