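import Pool.Agent.Lib.MP_8e135c_alW.Sys
import Pool.Agent.Lib.MP_8e135c_alW.Indec

/-!
# Homomorphisms between the modules of words of a word system
-/

namespace Pool.Agent.Lib.MP_8e135c_alW.Sys

open MulOpposite

universe u v

variable {R : Type u} [Ring R] {k : Type v} [Ring k] (W : WordSys R k)

theorem nil_le' (l : List Bool) : [] ≤ l := not_lt.1 (List.not_lt_nil l)

theorem drop_of_none {w : List Bool} {j : ℕ} (h : w[j]? = none) : w.drop j = [] :=
  List.drop_eq_nil_of_le (List.getElem?_eq_none_iff.1 h)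

theorem drop_of_some {w : List Bool} {j : ℕ} {b : Bool} (h : w[j]? = some b) :
    w.drop j = b :: w.drop (j + 1) := by
  rw [List.drop_eq_getElem?_toList_append, h]
  rfl

theorem drop_inj {w : List Bool} {i j : ℕ} (hi : i ≤ w.length) (hj : j ≤ w.length)
    (h : w.drop i = w.drop j) : i = j := by
  have := congrArg List.length h
  rw [List.length_drop, List.length_drop] at this
  omega

namespace WordSys

theorem smul_cl {w : List Bool} (f : ℕ → R) (r : R) :
    op r • W.cl w f = W.cl w (fun j => f j * r) := rfl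

theorem step {w w' : List Bool} (g : W.Mw w →ₗ[Rᵐᵒᵖ] W.Mw w') {i j : ℕ} {c : Bool}
    (hi : w[i]? = some c) (hj : w'[j]? = some c) :
    W.top (g (W.t w i)) j = W.top (g (W.t w (i + 1))) (j + 1) := by
  have h1 : W.cl w' (fun l => W.rep (g (W.t w i)) l * W.a c) =
      W.cl w' (fun l => W.rep (g (W.t w (i + 1))) l * W.b c) := by
    rw [← W.smul_cl, ← W.smul_cl, W.cl_rep, W.cl_rep, ← map_smul, ← map_smul, W.rel_letter hi]
  have h2 := ((W.mem_rel).1 ((Submodule.Quotient.eq _).1 h1)).2 j c hj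
  exact W.test c _ _ _ _ h2

theorem false_true {w w' : List Bool} (g : W.Mw w →ₗ[Rᵐᵒᵖ] W.Mw w') {i j : ℕ}
    (hi : w[i]? = some false) (hj : w'[j]? = some true) : W.top (g (W.t w i)) j = 0 := by
  have h1 : W.cl w' (fun l => W.rep (g (W.t w i)) l * W.a false) =
      W.cl w' (fun l => W.rep (g (W.t w (i + 1))) l * W.b false) := by
    rw [← W.smul_cl, ← W.smul_cl, W.cl_rep, W.cl_rep, ← map_smul, ← map_smul, W.rel_letter hi]
  have h2 := ((W.mem_rel).1 ((Submodule.Quotient.eq _).1 h1)).2 j true hj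
  exact W.test' _ _ _ _ h2

theorem end_some {w w' : List Bool} (g : W.Mw w →ₗ[Rᵐᵒᵖ] W.Mw w') {i j : ℕ} {c : Bool}
    (hi : w[i]? = none) (hj : w'[j]? = some c) : W.top (g (W.t w i)) j = 0 := by
  have h1 : W.cl w' (fun l => W.rep (g (W.t w i)) l * W.a false) = 0 := by
    rw [← W.smul_cl, W.cl_rep, ← map_smul, W.rel_end false hi, map_zero]
  have h2 := ((W.mem_rel).1 ((Submodule.Quotient.mk_eq_zero _).1 h1)).2 j c hj
  cases c with
  | false =>
    have h3 : (W.rep (g (W.t w i)) j * W.a false - 0 * W.b false,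
        W.rep (g (W.t w i)) (j + 1) * W.a false - 0 * W.b false) ∈ W.E false := by
      rw [zero_mul, sub_zero, sub_zero]
      exact h2
    have h4 := W.test false _ _ _ _ h3
    rwa [map_zero] at h4
  | true =>
    have h3 : (W.rep (g (W.t w i)) j * W.a false - 0 * W.b false,
        W.rep (g (W.t w i)) (j + 1) * W.a false - 0 * W.b false) ∈ W.E true := by
      rw [zero_mul, sub_zero, sub_zero]
      exact h2
    exact W.test' _ _ _ _ h3

/-- a nonzero entry in the matrix of a homomorphism compares the tails of the words -/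
theorem key {w w' : List Bool} (g : W.Mw w' →ₗ[Rᵐᵒᵖ] W.Mw w) :
    ∀ (l : List Bool) (i j : ℕ), w'.drop i = l → W.top (g (W.t w' i)) j ≠ 0 → w.drop j ≤ l := by
  intro l
  induction l with
  | nil =>
    intro i j hi h
    have hi' : w'[i]? = none := by
      cases hb : w'[i]? with
      | none => rfl
      | some b => rw [drop_of_some hb] at hi; exact absurd hi (by simp)
    cases hb : w[j]? with
    | none => rw [drop_of_none hb]
    | some b => exact absurd (W.end_some g hi' hb) h
  | cons b l ih =>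
    intro i j hi h
    have hi' : w'[i]? = some b ∧ w'.drop (i + 1) = l := by
      cases hb : w'[i]? with
      | none => rw [drop_of_none hb] at hi; exact absurd hi (by simp)
      | some b' =>
        rw [drop_of_some hb, List.cons.injEq] at hi
        exact ⟨by rw [hi.1], hi.2⟩
    cases hb : w[j]? with
    | none => rw [drop_of_none hb]; exact nil_le' _
    | some b' =>
      rw [drop_of_some hb]
      rcases eq_or_ne b' b with rfl | hne
      · refine List.cons_le_cons _ (ih (i + 1) (j + 1) hi'.2 ?_)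
        rwa [← W.step g hi'.1 hb]
      · cases b with
        | false =>
          have h4 : b' = true := by
            cases b' with
            | false => exact absurd rfl hne
            | true => rfl
          subst h4
          exact absurd (W.false_true g hi'.1 hb) h
        | true =>
          have h4 : b' = false := by
            cases b' with
            | false => rfl
            | true => exact absurd rfl hne
          subst h4
          exact le_of_lt (List.Lex.rel (by decide))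

theorem le_of_top_ne {w w' : List Bool} (g : W.Mw w' →ₗ[Rᵐᵒᵖ] W.Mw w) {i j : ℕ}
    (h : W.top (g (W.t w' i)) j ≠ 0) : w.drop j ≤ w'.drop i := W.key g _ i j rfl h

/-- the diagonal of the matrix of an endomorphism is constant -/
theorem diag {w : List Bool} (g : W.Mw w →ₗ[Rᵐᵒᵖ] W.Mw w) {i : ℕ} (hi : i ≤ w.length) :
    W.top (g (W.t w i)) i = W.top (g (W.t w 0)) 0 := by
  induction i with
  | zero => rfl
  | succ i ih =>
    rw [← ih (by omega)]
    have h : i < w.length := hi
    exact (W.step g (List.getElem?_eq_getElem h) (List.getElem?_eq_getElem h)).symm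

theorem map_expand {w w' : List Bool} (g : W.Mw w →ₗ[Rᵐᵒᵖ] W.Mw w') (m : W.Mw w) :
    g m = ∑ j ∈ Finset.range (w.length + 1), op (W.rep m j) • g (W.t w j) := by
  conv_lhs => rw [W.expand' m]
  rw [map_sum]
  exact Finset.sum_congr rfl fun j _ => map_smul g _ _

theorem g_t_expand {w w' : List Bool} (g : W.Mw w →ₗ[Rᵐᵒᵖ] W.Mw w') (i : ℕ) :
    g (W.t w i) = ∑ j ∈ Finset.range (w'.length + 1),
      op (W.e * W.rep (g (W.t w i)) j * W.e) • W.t w' j := by
  have h1 : g (W.t w i) = op W.e • g (W.t w i) := by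
    rw [← map_smul, W.smul_e_t]
  have h2 := W.expand' (g (W.t w i))
  have h3 : op W.e • g (W.t w i) = ∑ j ∈ Finset.range (w'.length + 1),
      op W.e • op (W.rep (g (W.t w i)) j) • W.t w' j := by
    conv_lhs => rw [h2]
    rw [Finset.smul_sum]
  refine h1.trans (h3.trans ?_)
  refine Finset.sum_congr rfl fun j _ => ?_
  rw [smul_smul, ← op_mul, mul_assoc, W.smul_e_mul_t]

theorem nil_t (w : List Bool) (i : ℕ) {s₁ s₂ s₃ : R} (h₁ : W.ρ s₁ = 0) (h₂ : W.ρ s₂ = 0)
    (h₃ : W.ρ s₃ = 0) : op (W.e * s₁ * W.e * s₂ * W.e * s₃ * W.e) • W.t w i = 0 := by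
  rw [W.smul_t, Submodule.Quotient.mk_eq_zero, W.mem_rel]
  have hx : W.e * (W.e * s₁ * W.e * s₂ * W.e * s₃ * W.e) =
      W.e * s₁ * W.e * s₂ * W.e * s₃ * W.e := by
    simp only [← mul_assoc, W.e_idem]
  rw [hx]
  refine ⟨fun j _ r => ?_, fun j d hj => ?_⟩
  · rcases eq_or_ne j i with rfl | h1
    · rw [Pi.single_eq_same]
      have h4 : W.e * s₁ * W.e * s₂ * W.e * s₃ * W.e * r =
          (W.e * s₁) * W.e * (s₂ * W.e * s₃ * W.e * r) := by
        simp only [mul_assoc]
      rw [h4, W.ρ_mul, W.ρ_e_mul, h₁, zero_mul]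
    · rw [Pi.single_eq_of_ne h1, zero_mul, map_zero]
  · rcases eq_or_ne j i with rfl | h1
    · rw [Pi.single_eq_same, Pi.single_eq_of_ne (by omega)]
      exact (W.nil d s₁ s₂ s₃ h₁ h₂ h₃).1
    · rw [Pi.single_eq_of_ne h1]
      rcases eq_or_ne (j + 1) i with rfl | h2
      · rw [Pi.single_eq_same]
        exact (W.nil d s₁ s₂ s₃ h₁ h₂ h₃).2
      · rw [Pi.single_eq_of_ne h2]
        exact W.zero_mem d

/-- product of matrices -/
theorem comp_top {w w' w'' : List Bool} (g : W.Mw w →ₗ[Rᵐᵒᵖ] W.Mw w')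
    (h : W.Mw w' →ₗ[Rᵐᵒᵖ] W.Mw w'') (i : ℕ) {l : ℕ} (hl : l ≤ w''.length) :
    W.top (h (g (W.t w i))) l =
      ∑ j ∈ Finset.range (w'.length + 1), W.top (h (W.t w' j)) l * W.top (g (W.t w i)) j := by
  conv_lhs => rw [W.g_t_expand g i]
  rw [map_sum, W.top_sum _ _ hl]
  refine Finset.sum_congr rfl fun j _ => ?_
  rw [map_smul]
  have h1 : op (W.e * W.rep (g (W.t w i)) j * W.e) • h (W.t w' j) =
      W.cl w'' (fun l => W.rep (h (W.t w' j)) l * (W.e * W.rep (g (W.t w i)) j * W.e)) := by
    rw [← W.smul_cl, W.cl_rep]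
  rw [h1, W.top_cl _ hl]
  have h2 : W.rep (h (W.t w' j)) l * (W.e * W.rep (g (W.t w i)) j * W.e) =
      W.rep (h (W.t w' j)) l * W.e * (W.rep (g (W.t w i)) j * W.e) := by
    simp only [mul_assoc]
  rw [h2, W.ρ_mul, W.ρ_mul_e]
  rfl

theorem cube {w : List Bool} (g : W.Mw w →ₗ[Rᵐᵒᵖ] W.Mw w)
    (h : ∀ i, ∀ j ≤ w.length, W.top (g (W.t w i)) j = 0) (m : W.Mw w) : g (g (g m)) = 0 := by
  have h1 : ∀ i, g (g (g (W.t w i))) = 0 := by
    intro i
    rw [W.g_t_expand g i, map_sum, map_sum]
    refine Finset.sum_eq_zero fun j hj => ?_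
    rw [map_smul, map_smul, W.g_t_expand g j, map_sum, Finset.smul_sum]
    refine Finset.sum_eq_zero fun l hl => ?_
    rw [map_smul, W.g_t_expand g l, Finset.smul_sum, Finset.smul_sum]
    refine Finset.sum_eq_zero fun p hp => ?_
    rw [smul_smul, smul_smul, ← op_mul, ← op_mul]
    have h2 : W.e * W.rep (g (W.t w l)) p * W.e * (W.e * W.rep (g (W.t w j)) l * W.e *
        (W.e * W.rep (g (W.t w i)) j * W.e)) = W.e * W.rep (g (W.t w l)) p * W.e *
          W.rep (g (W.t w j)) l * W.e * W.rep (g (W.t w i)) j * W.e := by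
      have h3 : ∀ x : R, W.e * (W.e * x) = W.e * x := fun x => by rw [← mul_assoc, W.e_idem]
      simp only [mul_assoc, h3]
    rw [h2]
    exact W.nil_t w p (h l p (Nat.lt_succ_iff.1 (Finset.mem_range.1 hp)))
      (h j l (Nat.lt_succ_iff.1 (Finset.mem_range.1 hl)))
      (h i j (Nat.lt_succ_iff.1 (Finset.mem_range.1 hj)))
  rw [W.map_expand g m, map_sum, map_sum]
  refine Finset.sum_eq_zero fun j _ => ?_
  rw [map_smul, map_smul, h1, smul_zero]

theorem idem_zero {w : List Bool} (e : W.Mw w →ₗ[Rᵐᵒᵖ] W.Mw w) (h2 : ∀ m, e (e m) = e m)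
    (h0 : W.top (e (W.t w 0)) 0 = 0) : e = 0 := by
  classical
  have hmat : ∀ i, ∀ j ≤ w.length, W.top (e (W.t w i)) j = 0 := by
    by_contra hc
    push Not at hc
    obtain ⟨i₀, j₀, hj₀, hij⟩ := hc
    let s := (Finset.range (w.length + 1)).filter
      fun i => ∃ j ≤ w.length, W.top (e (W.t w i)) j ≠ 0
    have hs : s.Nonempty := by
      refine ⟨i₀, Finset.mem_filter.2 ⟨?_, j₀, hj₀, hij⟩⟩
      rw [Finset.mem_range]
      by_contra hlt
      apply hij
      rw [W.t_big (by omega), map_zero, W.top_zero hj₀]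
    obtain ⟨i, hi, hmin⟩ := Finset.exists_min_image s (fun i => w.drop i) hs
    obtain ⟨hi1, j, hjl, hj⟩ := Finset.mem_filter.1 hi
    have h3 := W.comp_top e e i hjl
    rw [h2] at h3
    rw [h3] at hj
    obtain ⟨l, hl, hl0⟩ := Finset.exists_ne_zero_of_sum_ne_zero hj
    have hl1 := left_ne_zero_of_mul hl0
    have hl2 := right_ne_zero_of_mul hl0
    have h4 := W.le_of_top_ne e hl2
    have h5 := hmin l (Finset.mem_filter.2 ⟨hl, j, hjl, hl1⟩)
    have h6 := drop_inj (Nat.lt_succ_iff.1 (Finset.mem_range.1 hl))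
      (Nat.lt_succ_iff.1 (Finset.mem_range.1 hi1)) (le_antisymm h4 h5)
    subst h6
    apply hl2
    rw [W.diag e (Nat.lt_succ_iff.1 (Finset.mem_range.1 hl)), h0]
  refine LinearMap.ext fun m => ?_
  rw [← h2, ← h2, W.cube e hmat]
  rfl

/-- the modules of words are indecomposable -/
theorem idem [IsDomain k] {w : List Bool} (e : W.Mw w →ₗ[Rᵐᵒᵖ] W.Mw w)
    (h2 : ∀ m, e (e m) = e m) : e = 0 ∨ e = LinearMap.id := by
  have h3 := W.comp_top e e 0 (Nat.zero_le w.length)
  rw [h2, Finset.sum_eq_single 0] at h3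
  · have h4 : W.top (e (W.t w 0)) 0 = 0 ∨ W.top (e (W.t w 0)) 0 = 1 := by
      rcases eq_or_ne (W.top (e (W.t w 0)) 0) 0 with h | h
      · exact Or.inl h
      · right
        have h5 : W.top (e (W.t w 0)) 0 * 1 = W.top (e (W.t w 0)) 0 * W.top (e (W.t w 0)) 0 := by
          rw [mul_one]; exact h3
        exact (mul_left_cancel₀ h h5).symm
    rcases h4 with h | h
    · exact Or.inl (W.idem_zero e h2 h)
    · right
      have h5 : (LinearMap.id : W.Mw w →ₗ[Rᵐᵒᵖ] W.Mw w) - e = 0 := by
        refine W.idem_zero _ (fun m => ?_) ?_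
        · simp only [LinearMap.sub_apply, LinearMap.id_apply, map_sub, h2]
          abel
        · rw [LinearMap.sub_apply, LinearMap.id_apply, W.top_sub _ _ (Nat.zero_le _), h,
            W.top_t 0 (Nat.zero_le _), if_pos rfl, sub_self]
      exact (sub_eq_zero.1 h5).symm
  · intro l hl hl0
    by_contra hne
    have hk1 := W.le_of_top_ne e (right_ne_zero_of_mul hne)
    have hk2 := W.le_of_top_ne e (left_ne_zero_of_mul hne)
    exact hl0 (drop_inj (Nat.lt_succ_iff.1 (Finset.mem_range.1 hl)) (Nat.zero_le _)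
      (le_antisymm hk1 hk2))
  · intro h
    exact absurd (Finset.mem_range.2 (Nat.succ_pos _)) h

theorem suffix_of_inverse [Nontrivial k] {w w' : List Bool} (g : W.Mw w →ₗ[Rᵐᵒᵖ] W.Mw w')
    (h : W.Mw w' →ₗ[Rᵐᵒᵖ] W.Mw w) (hgh : ∀ m, h (g m) = m) : ∃ j, w'.drop j = w := by
  have h3 := W.comp_top g h 0 (Nat.zero_le w.length)
  rw [hgh, W.top_t 0 (Nat.zero_le _), if_pos rfl] at h3
  obtain ⟨j, -, hj⟩ := Finset.exists_ne_zero_of_sum_ne_zero (h3.symm.trans_ne one_ne_zero)
  exact ⟨j, le_antisymm (W.le_of_top_ne g (right_ne_zero_of_mul hj))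
    (W.le_of_top_ne h (left_ne_zero_of_mul hj))⟩

/-- modules of different words are not isomorphic -/
theorem eq_of_equiv [Nontrivial k] {w w' : List Bool} (g : W.Mw w ≃ₗ[Rᵐᵒᵖ] W.Mw w') :
    w = w' := by
  obtain ⟨j, hj⟩ := W.suffix_of_inverse g.toLinearMap g.symm.toLinearMap
    (fun m => g.symm_apply_apply m)
  obtain ⟨i, hi⟩ := W.suffix_of_inverse g.symm.toLinearMap g.toLinearMap
    (fun m => g.apply_symm_apply m)
  have h1 := congrArg List.length hj
  have h2 := congrArg List.length hi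
  rw [List.length_drop] at h1 h2
  rcases Nat.eq_zero_or_pos j with rfl | hj0
  · rw [← hj, List.drop_zero]
  · rcases Nat.eq_zero_or_pos i with rfl | hi0
    · rw [← hi, List.drop_zero]
    · have h3 : w.length = 0 := by omega
      have h4 : w'.length = 0 := by omega
      rw [List.length_eq_zero_iff.1 h3, List.length_eq_zero_iff.1 h4]

instance nontriv [Nontrivial k] (w : List Bool) : Nontrivial (W.Mw w) := by
  refine ⟨⟨W.t w 0, 0, fun h => ?_⟩⟩
  have h1 := congrArg (fun m => W.top m 0) h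
  change W.top (W.t w 0) 0 = W.top 0 0 at h1
  rw [W.top_t 0 (Nat.zero_le _), W.top_zero (Nat.zero_le _), if_pos rfl] at h1
  exact one_ne_zero h1

instance finite_Mw (w : List Bool) : Module.Finite Rᵐᵒᵖ (W.Mw w) := by
  classical
  refine ⟨⟨(Finset.range (w.length + 1)).image (W.t w), ?_⟩⟩
  rw [Submodule.eq_top_iff']
  intro m
  rw [W.expand' m]
  refine Submodule.sum_mem _ fun j hj => Submodule.smul_mem _ _ (Submodule.subset_span ?_)
  rw [Finset.coe_image]
  exact ⟨j, hj, rfl⟩

theorem indec [IsDomain k] (w : List Bool) : Indec Rᵐᵒᵖ (W.Mw w) := by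
  refine ⟨inferInstance, fun p q hpq => ?_⟩
  have hl : ∀ x : p, p.projectionOnto q hpq x = x :=
    fun x => Submodule.projectionOnto_apply_left hpq x
  have hr : ∀ x : q, p.projectionOnto q hpq x = 0 :=
    fun x => Submodule.projectionOnto_apply_right hpq x
  have h := W.idem (p.subtype ∘ₗ p.projectionOnto q hpq)
    (fun m => congrArg p.subtype (hl (p.projectionOnto q hpq m)))
  rcases h with h | h
  · left
    rw [Submodule.eq_bot_iff]
    intro x hx
    have h1 := LinearMap.congr_fun h x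
    have h2 : p.projectionOnto q hpq x = ⟨x, hx⟩ := hl ⟨x, hx⟩
    rw [LinearMap.comp_apply, h2] at h1
    exact h1
  · right
    rw [Submodule.eq_bot_iff]
    intro x hx
    have h1 := LinearMap.congr_fun h x
    have h2 : p.projectionOnto q hpq x = 0 := hr ⟨x, hx⟩
    rw [LinearMap.comp_apply, h2, map_zero] at h1
    exact h1.symm

end WordSys

end Pool.Agent.Lib.MP_8e135c_alW.Sys
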